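import Mathlib
import Pool.Agent.Y742.SF.PDex

/-!
# Project SN: statements of the packages

The abcd inequality over number fields for the points whose coordinates are sums of few elements of
a finitely generated group.
-/

set_option autoImplicit false

namespace Pool.Agent.P8H9.SN

open MvPolynomial NumberField
open Pool.Agent.Y742.SF

/-- the determinant with the rows `A` and `δ i A` -/
noncomputable def jac {R : Type} [CommRing R] {m : ℕ} (A : Fin (m + 1) → R) (δ : Fin m → R → R) : R :=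
  (Matrix.of fun i c : Fin (m + 1) => (Fin.cases (A c) (fun i => δ i (A c)) i : R)).det

/-- ALG: the determinant is divisible by the product of all `A σ`, up to a radical -/
def S_ALG : Prop := ∀ (R : Type) [CommRing R] [IsDomain R] [UniqueFactorizationMonoid R] (m : ℕ)
  (A : Fin (m + 2) → R) (δ : Fin m → Derivation ℤ R R) (r : R),
  (∀ σ, A σ ≠ 0) → ∑ σ, A σ = 0 → (∀ π, Prime π → ∃ σ, ¬ π ∣ A σ) →
  (∀ π, Prime π → (∃ σ, π ∣ A σ) → π ∣ r) →
  (∏ σ, A σ) ∣ r * jac (fun c : Fin (m + 1) => A c.castSucc) (fun i => δ i)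

/-- JAC: the Jacobian criterion -/
def S_JAC : Prop := ∀ (k : Type) [Field k] [CharZero k] (d m : ℕ)
  (A : Fin (m + 1) → MvPolynomial (Fin d) k),
  (∀ G : MvPolynomial (Fin (m + 1)) k, (∃ e, G.IsHomogeneous e) → G ≠ 0 → aeval A G ≠ 0) →
  ∃ κ : Fin m → Fin d, jac A (fun i => pderiv (κ i)) ≠ 0

/-- HT: heights of points with `S`-integral coordinates -/
def S_HT : Prop := ∀ (L : Type) [Field L] [NumberField L] [IsGalois ℚ L] (D : PD L) (n : ℕ)
  (x : Fin n → L), x ≠ 0 → (∀ j, D.TInt (x j)) →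
  Height.logHeight x ≤ ∑ v, Real.log (⨆ j, D.av v (x j))

/-- NRM: norms -/
def S_NRM : Prop := ∀ (L : Type) [Field L] [NumberField L] [IsGalois ℚ L] (D : PD L) (y : 𝓞 L),
  y ≠ 0 → ∑ v, Real.log (D.av v (y : L)) ≤ Real.log |((Algebra.norm ℤ y : ℤ) : ℝ)|

/-- EXT: a Galois extension with a square root of `-1` -/
def S_EXT : Prop := ∀ (K : Type) [Field K] [NumberField K],
  ∃ (L : Type) (_ : Field L) (_ : NumberField L) (_ : IsGalois ℚ L) (_ : Algebra K L),
    (∃ z : L, z ^ 2 = -1) ∧ (∀ y : 𝓞 K, ∀ y' : 𝓞 L, (y' : L) = algebraMap K L (y : K) →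
      Algebra.norm ℤ y' = Algebra.norm ℤ y ^ Module.finrank K L)

end Pool.Agent.P8H9.SN
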