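import Mathlib
import Pool.Agent.P8H9.SN.Stm
import Pool.Agent.N754.LT.Str

/-!
# The algebraic part: from germs to polynomials
-/

set_option autoImplicit false
set_option linter.unusedSectionVars false

open Finset MvPolynomial

namespace Pool.Agent.P8H9.SN

open Pool.Agent.N754.LT

/-- a common divisor -/
theorem exists_gcd {R : Type} [CommRing R] [IsDomain R] [UniqueFactorizationMonoid R] {n : ℕ}
    (x : Fin (n + 1) → R) (hx : ∀ i, x i ≠ 0) :
    ∃ (g : R) (y : Fin (n + 1) → R), (∀ i, x i = g * y i) ∧ ∀ π, Prime π → ∃ i, ¬ π ∣ y i := by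
  classical
  let : NormalizedGCDMonoid R := Classical.arbitrary _
  obtain ⟨y, h1, h2⟩ := Finset.extract_gcd x (s := Finset.univ) ⟨0, Finset.mem_univ _⟩
  refine ⟨Finset.univ.gcd x, y, fun i => h1 i (Finset.mem_univ i), fun π hπ => ?_⟩
  by_contra hcon
  push Not at hcon
  have h3 : π ∣ Finset.univ.gcd y := Finset.dvd_gcd fun i _ => hcon i
  rw [h2] at h3
  exact hπ.not_unit (isUnit_of_dvd_one h3)

/-- scaling -/
theorem hom_scale {k S : Type} [Field k] [CommRing S] [Algebra k S] {n e : ℕ}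
    {G : MvPolynomial (Fin n) k} (hG : G.IsHomogeneous e) (g : S) (x : Fin n → S) :
    aeval (fun c => g * x c) G = g ^ e * aeval x G := by
  rw [aeval_def, aeval_def, eval₂_eq', eval₂_eq', Finset.mul_sum]
  refine Finset.sum_congr rfl fun d hd => ?_
  have h1 : ∏ c, (g * x c) ^ d c = g ^ e * ∏ c, x c ^ d c := by
    have h2 : Finsupp.degree d = e := (hG.degree_eq_sum_deg_support hd).symm
    rw [← h2, Finsupp.degree_eq_sum, ← Finset.prod_pow_eq_pow_sum, ← Finset.prod_mul_distrib]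
    exact Finset.prod_congr rfl fun c _ => mul_pow _ _ _
  rw [h1]
  ring

variable {k B : Type} [Field k] [CharZero k] [Field B] [Algebra k B]

/-- the structure of the germs -/
theorem str_part (𝒲 : Subgroup Bˣ)
    (hunit : ∀ (m : ℕ) (g : Fin m → Bˣ), (∀ i, g i ∈ 𝒲) →
      (∀ i j, i ≠ j → ∀ c : k, (g i : B) ≠ algebraMap k B c * g j) →
      ∀ c : Fin m → k, ∑ i, algebraMap k B (c i) * g i = 0 → c = 0)
    (htf : ∀ g ∈ 𝒲, ∀ m : ℕ, 0 < m → (∃ c : k, ((g ^ m : Bˣ) : B) = algebraMap k B c) →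
      ∃ c : k, (g : B) = algebraMap k B c) {ι : Type} [Fintype ι] (u : ι → Bˣ)
    (hu : ∀ i, u i ∈ 𝒲) :
    ∃ (r : ℕ) (w : Fin r → Bˣ) (p : ι → MvPolynomial (Fin r) k) (N0 : ℕ),
      (∀ j, w j ∈ 𝒲) ∧
      (∀ b : Fin r → ℤ, (∃ c : k, ((∏ j, w j ^ b j : Bˣ) : B) = algebraMap k B c) → b = 0) ∧
      AlgebraicIndependent k (fun j => (w j : B)) ∧
      (∀ i, aeval (fun j => (w j : B)) (p i) = u i * ∏ j, (w j : B) ^ N0) := by
  classical
  let C : Subgroup 𝒲 := (constU k B).subgroupOf 𝒲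
  obtain ⟨r, w', a', c', hc', hu', hind', -⟩ := exists_basis C
    (fun g m hm h => by
      obtain ⟨c, hc⟩ := htf g.1 g.2 m hm h
      exact ⟨c, hc⟩) (fun i : ι => (⟨u i, hu i⟩ : 𝒲))
  let w : Fin r → Bˣ := fun j => (w' j).1
  have hw𝒲 : ∀ j, w j ∈ 𝒲 := fun j => (w' j).2
  have hprod : ∀ b : Fin r → ℤ, ((∏ j, w' j ^ b j : 𝒲) : Bˣ) = ∏ j, w j ^ b j := by
    intro b
    rw [Subgroup.val_finsetProd]
    exact Finset.prod_congr rfl fun j _ => rfl
  have hind : ∀ b : Fin r → ℤ, (∃ c : k, ((∏ j, w j ^ b j : Bˣ) : B) = algebraMap k B c) →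
      b = 0 := by
    intro b ⟨c, hc⟩
    apply hind'
    refine ⟨c, ?_⟩
    have h1 : (𝒲.subtype (∏ j, w' j ^ b j) : Bˣ) = ∏ j, w j ^ b j := hprod b
    rw [h1]
    exact hc
  have hwAI := algInd_of_units 𝒲 hunit w hw𝒲 hind
  have hc2 : ∀ i : ι, ∃ c : k, ((c' i).1 : B) = algebraMap k B c := fun i => hc' i
  choose c hc using hc2
  obtain ⟨N0, hN0⟩ : ∃ N0 : ℕ, ∀ i j, (a' i j).natAbs ≤ N0 := by
    refine ⟨∑ i, ∑ j, (a' i j).natAbs, fun i j => ?_⟩
    refine le_trans ?_ (Finset.single_le_sum (f := fun i => ∑ j, (a' i j).natAbs)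
      (fun _ _ => Nat.zero_le _) (Finset.mem_univ i))
    exact Finset.single_le_sum (f := fun j => (a' i j).natAbs)
      (fun _ _ => Nat.zero_le _) (Finset.mem_univ j)
  let e : ι → (Fin r →₀ ℕ) := fun i => Finsupp.equivFunOnFinite.symm fun j => (a' i j + N0).toNat
  refine ⟨r, w, fun i => monomial (e i) (c i), N0, hw𝒲, hind, hwAI, fun i => ?_⟩
  have h1 := congrArg (fun g : 𝒲 => ((g : Bˣ) : B)) (hu' i)
  simp only [Subgroup.coe_mul, Units.val_mul] at h1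
  rw [hprod, hc] at h1
  have h2 : (∏ j, w j ^ a' i j) * (∏ j, w j ^ N0) = ∏ j, w j ^ (e i j) := by
    rw [← Finset.prod_mul_distrib]
    refine Finset.prod_congr rfl fun j _ => ?_
    rw [← zpow_natCast, ← zpow_natCast, ← zpow_add]
    congr 1
    have h3 : e i j = (a' i j + N0).toNat := rfl
    have h4 := hN0 i j
    rw [h3]
    omega
  have h3 := congrArg (fun g : Bˣ => (g : B)) h2
  simp only [Units.val_mul, Units.coe_prod, Units.val_pow_eq_pow_val] at h3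
  rw [aeval_monomial, Finsupp.prod_fintype _ _ (fun _ => pow_zero _), ← h3, h1, ← mul_assoc]
  simp only [Units.coe_prod]

/-- the polynomials of a generic relation between sparse germs -/
theorem alg_part (hALG : S_ALG) (hJAC : S_JAC) (𝒲 : Subgroup Bˣ)
    (hunit : ∀ (m : ℕ) (g : Fin m → Bˣ), (∀ i, g i ∈ 𝒲) →
      (∀ i j, i ≠ j → ∀ c : k, (g i : B) ≠ algebraMap k B c * g j) →
      ∀ c : Fin m → k, ∑ i, algebraMap k B (c i) * g i = 0 → c = 0)
    (htf : ∀ g ∈ 𝒲, ∀ m : ℕ, 0 < m → (∃ c : k, ((g ^ m : Bˣ) : B) = algebraMap k B c) →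
      ∃ c : k, (g : B) = algebraMap k B c) {ι : Type} [Fintype ι] (u : ι → Bˣ)
    (hu : ∀ i, u i ∈ 𝒲) {m : ℕ} (M : ℕ) (α : Fin (m + 2) → B) (ρ τ : B)
    (Iα : Fin (m + 2) → Finset ι) (Iρ Iτ : Finset ι) (hα : ∀ σ, α σ = ∑ i ∈ Iα σ, (u i : B))
    (hρ : ρ = ∑ i ∈ Iρ, (u i : B)) (hτ : τ = ∑ i ∈ Iτ, (u i : B)) (hα0 : ∀ σ, α σ ≠ 0)
    (hsum : ∑ σ, α σ = 0) (hrel : ρ ^ M = τ * ∏ σ, α σ)
    (hgen : ∀ G : MvPolynomial (Fin (m + 1)) k, (∃ e, G.IsHomogeneous e) → G ≠ 0 →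
      aeval (fun c : Fin (m + 1) => α c.castSucc) G ≠ 0) :
    ∃ (r : ℕ) (w : Fin r → Bˣ) (A : Fin (m + 2) → MvPolynomial (Fin r) k)
      (ρp q : MvPolynomial (Fin r) k) (g : B) (N0 : ℕ) (κ : Fin m → Fin r),
      (∀ j, w j ∈ 𝒲) ∧
      (∀ b : Fin r → ℤ, (∃ c : k, ((∏ j, w j ^ b j : Bˣ) : B) = algebraMap k B c) → b = 0) ∧
      AlgebraicIndependent k (fun j => (w j : B)) ∧
      (∀ σ, A σ ≠ 0) ∧ ∑ σ, A σ = 0 ∧ (∀ σ, α σ = g * aeval (fun j => (w j : B)) (A σ)) ∧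
      aeval (fun j => (w j : B)) ρp = ρ * ∏ j, (w j : B) ^ N0 ∧
      jac (fun c : Fin (m + 1) => A c.castSucc) (fun i => pderiv (κ i)) ≠ 0 ∧
      ρp * (∏ j, X j) * jac (fun c : Fin (m + 1) => A c.castSucc) (fun i => pderiv (κ i)) =
        q * ∏ σ, A σ := by
  classical
  obtain ⟨r, w, p, N0, hw, hind, hAI, hp⟩ := str_part 𝒲 hunit htf u hu
  have hinj : Function.Injective (aeval (R := k) fun j => (w j : B)) := hAI
  obtain ⟨W, hW⟩ : ∃ W : B, W = ∏ j, (w j : B) ^ N0 := ⟨_, rfl⟩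
  have hW0 : W ≠ 0 := by
    rw [hW]
    exact Finset.prod_ne_zero_iff.2 fun j _ => pow_ne_zero _ (Units.ne_zero _)
  rw [← hW] at hp
  have hpoly : ∀ (I : Finset ι), aeval (fun j => (w j : B)) (∑ i ∈ I, p i) =
      (∑ i ∈ I, (u i : B)) * W := by
    intro I
    rw [map_sum, Finset.sum_mul]
    exact Finset.sum_congr rfl fun i _ => hp i
  let At : Fin (m + 2) → MvPolynomial (Fin r) k := fun σ => ∑ i ∈ Iα σ, p i
  let ρt : MvPolynomial (Fin r) k := ∑ i ∈ Iρ, p i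
  let τt : MvPolynomial (Fin r) k := ∑ i ∈ Iτ, p i
  have hAt : ∀ σ, aeval (fun j => (w j : B)) (At σ) = α σ * W := fun σ => by
    rw [hα]
    exact hpoly _
  have hρt : aeval (fun j => (w j : B)) ρt = ρ * W := by
    rw [hρ]
    exact hpoly _
  have hτt : aeval (fun j => (w j : B)) τt = τ * W := by
    rw [hτ]
    exact hpoly _
  have hAt0 : ∀ σ, At σ ≠ 0 := by
    intro σ h
    have h1 := hAt σ
    rw [h, map_zero] at h1
    exact mul_ne_zero (hα0 σ) hW0 h1.symm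
  obtain ⟨g, A, hgA, hprime⟩ := exists_gcd At hAt0
  have hg0 : g ≠ 0 := by
    rintro rfl
    exact hAt0 0 (by rw [hgA, zero_mul])
  have hA0 : ∀ σ, A σ ≠ 0 := fun σ h => hAt0 σ (by rw [hgA, h, mul_zero])
  have hAsum : ∑ σ, A σ = 0 := by
    have h1 : g * ∑ σ, A σ = 0 := by
      apply hinj
      rw [Finset.mul_sum, map_zero, map_sum]
      have h2 : ∀ σ, aeval (fun j => (w j : B)) (g * A σ) = α σ * W := fun σ => by
        rw [← hgA, hAt]
      rw [Finset.sum_congr rfl fun σ _ => h2 σ, ← Finset.sum_mul, hsum, zero_mul]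
    exact (mul_eq_zero.1 h1).resolve_left hg0
  -- the relation
  let P : MvPolynomial (Fin r) k := ∏ j, X j ^ N0
  have hP : aeval (fun j => (w j : B)) P = W := by
    simp only [P]
    rw [map_prod, hW]
    exact Finset.prod_congr rfl fun j _ => by rw [map_pow, aeval_X]
  have hrelt : ρt ^ M * P ^ (m + 3) = τt * (∏ σ, At σ) * P ^ M := by
    apply hinj
    simp only [map_mul, map_pow, map_prod, hρt, hτt, hP, hAt]
    rw [Finset.prod_mul_distrib, Finset.prod_const, Finset.card_univ, Fintype.card_fin, mul_pow,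
      hrel]
    ring
  -- the radical
  have hrad : ∀ π, Prime π → (∃ σ, π ∣ A σ) → π ∣ ρt * ∏ j, X j := by
    rintro π hπ ⟨σ, hσ⟩
    have h1 : π ∣ ρt ^ M * P ^ (m + 3) := by
      rw [hrelt]
      refine Dvd.dvd.mul_right (Dvd.dvd.mul_left ?_ _) _
      refine dvd_trans ?_ (Finset.dvd_prod_of_mem _ (Finset.mem_univ σ))
      rw [hgA]
      exact Dvd.dvd.mul_left hσ _
    rcases hπ.dvd_or_dvd h1 with h2 | h2
    · exact Dvd.dvd.mul_right (hπ.dvd_of_dvd_pow h2) _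
    · have h3 := hπ.dvd_of_dvd_pow h2
      obtain ⟨j, -, hj⟩ := (Prime.dvd_finset_prod_iff hπ _).1 h3
      refine Dvd.dvd.mul_left ((hπ.dvd_of_dvd_pow hj).trans ?_) _
      exact Finset.dvd_prod_of_mem _ (Finset.mem_univ j)
  -- genericity
  have hgen' : ∀ G : MvPolynomial (Fin (m + 1)) k, (∃ e, G.IsHomogeneous e) → G ≠ 0 →
      aeval (fun c : Fin (m + 1) => A c.castSucc) G ≠ 0 := by
    rintro G ⟨e, he⟩ hG h
    apply hgen G ⟨e, he⟩ hG
    have h1 : aeval (fun c : Fin (m + 1) => At c.castSucc) G = 0 := by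
      have h2 : (fun c : Fin (m + 1) => At c.castSucc) = fun c => g * A (Fin.castSucc c) := by
        funext c
        exact hgA _
      rw [h2, hom_scale he, h, mul_zero]
    have h2 : aeval (fun c : Fin (m + 1) => α c.castSucc * W) G = 0 := by
      have h3 : aeval (fun j => (w j : B)) (aeval (fun c : Fin (m + 1) => At c.castSucc) G) = 0 := by
        rw [h1, map_zero]
      rw [← h3, ← AlgHom.comp_apply, comp_aeval]
      simp only [hAt]
    have h3 : (fun c : Fin (m + 1) => α c.castSucc * W) = fun c => W * α (Fin.castSucc c) := by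
      funext c
      exact mul_comm _ _
    rw [h3, hom_scale he] at h2
    exact (mul_eq_zero.1 h2).resolve_left (pow_ne_zero _ hW0)
  obtain ⟨κ, hκ⟩ := hJAC k r m (fun c : Fin (m + 1) => A c.castSucc) hgen'
  obtain ⟨q, hq⟩ := hALG (MvPolynomial (Fin r) k) m A
    (fun i => (pderiv (κ i)).restrictScalars ℤ) (ρt * ∏ j, X j) hA0 hAsum hprime hrad
  refine ⟨r, w, A, ρt, q, aeval (fun j => (w j : B)) g / W, N0, κ, hw, hind, hAI, hA0, hAsum,
    fun σ => ?_, ?_, hκ, ?_⟩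
  · have h1 := hAt σ
    rw [hgA, map_mul] at h1
    rw [div_mul_eq_mul_div, h1, mul_div_cancel_right₀ _ hW0]
  · rw [hρt, hW]
  · rw [mul_comm q]
    exact hq

end Pool.Agent.P8H9.SN
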