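import Mathlib
import Pool.Agent.P8H9.SN.Stm

/-!
# The size of the Jacobian determinant
-/

set_option autoImplicit false
set_option linter.unusedSectionVars false

open Finset MvPolynomial

namespace Pool.Agent.P8H9.SN

/-- the determinant is bounded by the products of bounds for the columns -/
theorem abs_det_le {L : Type} [Field L] (f : AbsoluteValue L ℝ) {n : ℕ}
    (M : Matrix (Fin n) (Fin n) L) (B : Fin n → ℝ) (h : ∀ i j, f (M i j) ≤ B j) :
    f M.det ≤ n.factorial * ∏ j, B j := by
  rw [Matrix.det_apply]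
  refine (f.sum_le _ _).trans ?_
  have h1 : ∀ σ ∈ (Finset.univ : Finset (Equiv.Perm (Fin n))),
      f (Equiv.Perm.sign σ • ∏ i, M (σ i) i) ≤ ∏ j, B j := by
    intro σ _
    have h2 : f (Equiv.Perm.sign σ • ∏ i, M (σ i) i) = f (∏ i, M (σ i) i) := by
      rcases Int.units_eq_one_or (Equiv.Perm.sign σ) with h | h
      · rw [h, one_smul]
      · rw [h, Units.neg_smul, one_smul, f.map_neg]
    rw [h2, map_prod]
    exact Finset.prod_le_prod (fun _ _ => f.nonneg _) fun i _ => h _ _
  refine (Finset.sum_le_sum h1).trans ?_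
  rw [Finset.sum_const, Finset.card_univ, Fintype.card_perm, Fintype.card_fin, nsmul_eq_mul]

/-- if the rows have sum zero, any column may be omitted -/
theorem abs_det_le' {L : Type} [Field L] (f : AbsoluteValue L ℝ) {n : ℕ}
    (M : Matrix (Fin n) (Fin (n + 1)) L) (B : Fin (n + 1) → ℝ) (h : ∀ i j, f (M i j) ≤ B j)
    (hs : ∀ i, ∑ j, M i j = 0) (j0 : Fin (n + 1)) :
    f (M.submatrix id (Fin.castSucc)).det ≤ n.factorial * ∏ j, B (j0.succAbove j) := by
  have h1 : f (M.submatrix id (Fin.castSucc)).det = f (M.submatrix id (Fin.succAbove j0)).det := by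
    have h2 := Matrix.submatrix_succAbove_det_eq_negOnePow_submatrix_succAbove_det' M hs
      (Fin.last n) j0
    have h3 : (Fin.last n).succAbove = Fin.castSucc := by
      funext i
      exact Fin.succAbove_last_apply i
    rw [h3] at h2
    rw [h2]
    rcases Int.units_eq_one_or (Int.negOnePow ((Fin.last n : Fin (n + 1)) - j0 : ℤ)) with h | h
    · rw [h, one_smul]
    · rw [h, Units.neg_smul, one_smul, f.map_neg]
  rw [h1]
  exact abs_det_le f _ _ fun i j => h _ _

/-- the largest monomial of `P` at the point `x` -/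
noncomputable def sz {L : Type} [Field L] (f : AbsoluteValue L ℝ) {r : ℕ}
    (P : MvPolynomial (Fin r) L) (x : Fin r → L) : ℝ := ⨆ s : P.support, f (∏ j, x j ^ s.1 j)

theorem le_sz {L : Type} [Field L] (f : AbsoluteValue L ℝ) {r : ℕ}
    (P : MvPolynomial (Fin r) L) (x : Fin r → L) (s : Fin r →₀ ℕ) (hs : s ∈ P.support) :
    f (∏ j, x j ^ s j) ≤ sz f P x :=
  le_ciSup (f := fun s : P.support => f (∏ j, x j ^ s.1 j)) (Set.finite_range _).bddAbove ⟨s, hs⟩

theorem sz_nonneg {L : Type} [Field L] (f : AbsoluteValue L ℝ) {r : ℕ}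
    (P : MvPolynomial (Fin r) L) (x : Fin r → L) : 0 ≤ sz f P x :=
  Real.iSup_nonneg fun _ => f.nonneg _

/-- the values of `P` and of its logarithmic derivatives -/
theorem bnd_eval {L : Type} [Field L] (f : AbsoluteValue L ℝ) {r : ℕ}
    (P : MvPolynomial (Fin r) L) :
    ∃ C : ℝ, 0 ≤ C ∧ ∀ x : Fin r → L, f (eval x P) ≤ C * sz f P x ∧
      ∀ j, f (eval x (X j * pderiv j P)) ≤ C * sz f P x := by
  classical
  refine ⟨∑ s ∈ P.support, (f (coeff s P) + ∑ j, f (s j * coeff s P)),
    Finset.sum_nonneg fun s _ => add_nonneg (f.nonneg _)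
      (Finset.sum_nonneg fun _ _ => f.nonneg _), fun x => ⟨?_, fun j => ?_⟩⟩
  · rw [eval_eq', Finset.sum_mul]
    refine (f.sum_le _ _).trans (Finset.sum_le_sum fun s hs => ?_)
    rw [map_mul]
    refine mul_le_mul ?_ (le_sz f P x s hs) (f.nonneg _) (add_nonneg (f.nonneg _)
      (Finset.sum_nonneg fun _ _ => f.nonneg _))
    exact le_add_of_nonneg_right (Finset.sum_nonneg fun _ _ => f.nonneg _)
  · have h1 : eval x (X j * pderiv j P) =
        ∑ s ∈ P.support, ((s j : L) * coeff s P) * ∏ i, x i ^ s i := by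
      conv_lhs => rw [P.as_sum, map_sum, Finset.mul_sum, map_sum]
      refine Finset.sum_congr rfl fun s _ => ?_
      rw [X_mul_pderiv_monomial, map_nsmul, eval_monomial, Finsupp.prod_fintype _ _
        (fun _ => pow_zero _), nsmul_eq_mul]
      ring
    rw [h1, Finset.sum_mul]
    refine (f.sum_le _ _).trans (Finset.sum_le_sum fun s hs => ?_)
    rw [map_mul]
    refine mul_le_mul ?_ (le_sz f P x s hs) (f.nonneg _) (add_nonneg (f.nonneg _)
      (Finset.sum_nonneg fun _ _ => f.nonneg _))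
    refine le_trans ?_ (le_add_of_nonneg_left (f.nonneg _))
    exact Finset.single_le_sum (f := fun j => f (s j * coeff s P)) (fun _ _ => f.nonneg _)
      (Finset.mem_univ j)

/-- the bound for the Jacobian determinant -/
theorem jac_bound {L : Type} [Field L] (f : AbsoluteValue L ℝ) {r m : ℕ}
    (A : Fin (m + 2) → MvPolynomial (Fin r) L) (hsum : ∑ σ, A σ = 0) (κ : Fin m → Fin r) :
    ∃ C : ℝ, 0 ≤ C ∧ ∀ (x : Fin r → L) (σ0 : Fin (m + 2)),
      f (eval x ((∏ i, X (κ i)) *
        jac (fun c : Fin (m + 1) => A c.castSucc) (fun i => pderiv (κ i)))) ≤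
        C * ∏ c : Fin (m + 1), sz f (A (σ0.succAbove c)) x := by
  classical
  choose C hC0 hC using fun σ => bnd_eval f (A σ)
  have hS0 : 0 ≤ ∑ σ, C σ := Finset.sum_nonneg fun σ _ => hC0 σ
  refine ⟨(m + 1).factorial * (∑ σ, C σ) ^ (m + 1), by positivity, fun x σ0 => ?_⟩
  let M : Matrix (Fin (m + 1)) (Fin (m + 2)) L := Matrix.of fun i σ =>
    (Fin.cases (eval x (A σ)) (fun i => eval x (X (κ i) * pderiv (κ i) (A σ))) i : L)
  have hM : ∀ i σ, f (M i σ) ≤ (∑ σ, C σ) * sz f (A σ) x := by
    intro i σ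
    have h1 : C σ * sz f (A σ) x ≤ (∑ σ, C σ) * sz f (A σ) x :=
      mul_le_mul_of_nonneg_right (Finset.single_le_sum (fun σ _ => hC0 σ) (Finset.mem_univ σ))
        (sz_nonneg f _ _)
    refine le_trans ?_ h1
    refine Fin.cases ?_ (fun i => ?_) i
    · exact (hC σ x).1
    · exact (hC σ x).2 _
  have hMs : ∀ i, ∑ σ, M i σ = 0 := by
    intro i
    refine Fin.cases ?_ (fun i => ?_) i
    · show ∑ σ, eval x (A σ) = 0
      rw [← map_sum, hsum, map_zero]
    · show ∑ σ, eval x (X (κ i) * pderiv (κ i) (A σ)) = 0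
      rw [← map_sum, ← Finset.mul_sum, ← map_sum, hsum, map_zero, mul_zero, map_zero]
  have hdet : eval x ((∏ i, X (κ i)) *
      jac (fun c : Fin (m + 1) => A c.castSucc) (fun i => pderiv (κ i))) =
      (M.submatrix id Fin.castSucc).det := by
    have h1 : (M.submatrix id Fin.castSucc) = Matrix.of fun i j : Fin (m + 1) =>
        (Fin.cons 1 (fun i => x (κ i)) : Fin (m + 1) → L) i *
        (Matrix.of fun i c : Fin (m + 1) => (Fin.cases (eval x (A (Fin.castSucc c)))
          (fun i => eval x (pderiv (κ i) (A (Fin.castSucc c)))) i : L)) i j := by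
      ext i c
      refine Fin.cases ?_ (fun i => ?_) i
      · simp [M]
      · simp [M]
    rw [h1, Matrix.det_mul_column, Fin.prod_univ_succ]
    simp only [Fin.cons_zero, Fin.cons_succ, one_mul]
    rw [map_mul, map_prod]
    simp only [eval_X]
    congr 1
    unfold jac
    rw [RingHom.map_det]
    congr 1
    ext i c
    refine Fin.cases ?_ (fun i => ?_) i
    · rfl
    · rfl
  rw [hdet]
  refine (abs_det_le' f M (fun σ => (∑ σ, C σ) * sz f (A σ) x) hM hMs σ0).trans ?_
  rw [Finset.prod_mul_distrib, Finset.prod_const, Finset.card_univ, Fintype.card_fin, mul_assoc]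

end Pool.Agent.P8H9.SN
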