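import Mathlib
import Pool.Agent.N754.LT.Dc

/-!
# The size of a combination of independent units
-/

set_option autoImplicit false
set_option linter.unusedSectionVars false

open Finset Filter Module

namespace Pool.Agent.P8H9.SN

open Pool.Agent.N754.LT

variable {k R : Type} [Field k] [CommRing R] [IsDomain R] [Algebra k R] (D : Dc k R)

/-- the absolute values of a combination of independent units are, up to a negligible factor, those
of the largest term -/
theorem size_le {T : Type} [Fintype T] [Nonempty T] (m : T → Rˣ)
    (hli : LinearIndependent k (fun s => (m s : R))) (c0 : T → k) (hc0 : ∀ s, c0 s ≠ 0) :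
    D.Neg (fun ω => (⨆ s, D.lg (m s : R) ω) - D.lg (∑ s, algebraMap k R (c0 s) * (m s : R)) ω) := by
  classical
  obtain ⟨f, hf⟩ : ∃ f, f = ∑ s, algebraMap k R (c0 s) * (m s : R) := ⟨_, rfl⟩
  rw [← hf]
  let e : Fin (Fintype.card T) ≃ T := (Fintype.equivFin T).symm
  let B : T → Fin (Fintype.card T) → R := fun c i => if e i = c then f else (m (e i) : R)
  have hf0 : f ≠ 0 := by
    intro h
    obtain ⟨s⟩ := (inferInstance : Nonempty T)
    rw [h] at hf
    refine hc0 s (Fintype.linearIndependent_iff.1 hli c0 ?_ s)
    rw [hf]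
    exact Finset.sum_congr rfl fun s _ => Algebra.smul_def _ _
  -- independence
  have hBli : ∀ c, LinearIndependent k (B c) := by
    intro c
    rw [Fintype.linearIndependent_iff]
    intro g hg
    have h1 : ∑ a : T, g (e.symm a) • (if a = c then f else (m a : R)) = 0 := by
      rw [← hg]
      exact Fintype.sum_equiv e.symm _ _ fun a => by simp [B]
    have h2 : ∑ a : T, ((if a = c then 0 else g (e.symm a)) +
        g (e.symm c) * c0 a) • (m a : R) = 0 := by
      rw [← h1]
      have h3 : ∑ a : T, g (e.symm a) • (if a = c then f else (m a : R)) =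
          g (e.symm c) • f + ∑ a : T, (if a = c then 0 else g (e.symm a)) • (m a : R) := by
        rw [← Finset.add_sum_erase _ _ (Finset.mem_univ c), if_pos rfl]
        congr 1
        rw [← Finset.add_sum_erase (Finset.univ : Finset T) (fun a => (if a = c then 0 else
          g (e.symm a)) • (m a : R)) (Finset.mem_univ c), if_pos rfl, zero_smul, zero_add]
        refine Finset.sum_congr rfl fun a ha => ?_
        rw [if_neg (Finset.ne_of_mem_erase ha), if_neg (Finset.ne_of_mem_erase ha)]
      rw [h3, hf, Finset.smul_sum, ← Finset.sum_add_distrib]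
      refine Finset.sum_congr rfl fun a _ => ?_
      rw [add_smul, mul_smul, Algebra.smul_def (c0 a)]
      abel
    have h3 := Fintype.linearIndependent_iff.1 hli _ h2
    have h4 : g (e.symm c) = 0 := by
      have h5 := h3 c
      simp only [if_true, zero_add] at h5
      exact (mul_eq_zero.1 h5).resolve_right (hc0 c)
    intro i
    by_cases hi : e i = c
    · rw [← hi, Equiv.symm_apply_apply] at h4
      exact h4
    · have h5 := h3 (e i)
      simp only [if_neg hi, Equiv.symm_apply_apply, h4, zero_mul, add_zero] at h5
      exact h5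
  -- spans
  have hspan : ∀ c, Submodule.span k (Set.range (B c)) =
      Submodule.span k (Set.range fun a : T => (m a : R)) := by
    intro c
    have hmem : f ∈ Submodule.span k (Set.range fun a : T => (m a : R)) := by
      rw [hf]
      refine Submodule.sum_mem _ fun a _ => ?_
      rw [← Algebra.smul_def]
      exact Submodule.smul_mem _ _ (Submodule.subset_span ⟨a, rfl⟩)
    apply le_antisymm
    · rw [Submodule.span_le]
      rintro _ ⟨i, rfl⟩
      by_cases hi : e i = c
      · simp only [B, if_pos hi]
        exact hmem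
      · simp only [B, if_neg hi]
        exact Submodule.subset_span ⟨e i, rfl⟩
    · rw [Submodule.span_le]
      have hne : ∀ a, a ≠ c → (m a : R) ∈ Submodule.span k (Set.range (B c)) := by
        intro a ha
        refine Submodule.subset_span ⟨e.symm a, ?_⟩
        simp only [B, Equiv.apply_symm_apply, if_neg ha]
      have hqm : f ∈ Submodule.span k (Set.range (B c)) := by
        refine Submodule.subset_span ⟨e.symm c, ?_⟩
        simp only [B, Equiv.apply_symm_apply, if_true]
      rintro _ ⟨a, rfl⟩
      by_cases ha : a = c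
      · subst ha
        have h1 : (m a : R) = (c0 a)⁻¹ • (f -
            ∑ a' ∈ Finset.univ.erase a, c0 a' • (m a' : R)) := by
          have h2 : f = c0 a • (m a : R) +
              ∑ a' ∈ Finset.univ.erase a, c0 a' • (m a' : R) := by
            rw [Finset.add_sum_erase _ (fun a' => c0 a' • (m a' : R)) (Finset.mem_univ a), hf]
            exact Finset.sum_congr rfl fun a' _ => (Algebra.smul_def _ _).symm
          rw [h2, add_sub_cancel_right, smul_smul, inv_mul_cancel₀ (hc0 a), one_smul]
        show (m a : R) ∈ _
        rw [h1]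
        refine Submodule.smul_mem _ _ (Submodule.sub_mem _ hqm (Submodule.sum_mem _ fun a' ha' =>
          Submodule.smul_mem _ _ (hne _ (Finset.ne_of_mem_erase ha'))))
      · exact hne a ha
  -- the largest term
  choose s hs using fun ω : D.Ω => Finite.exists_max (fun a : T => D.lg (m a : R) ω)
  have hsup : ∀ ω, ⨆ a, D.lg (m a : R) ω = D.lg (m (s ω) : R) ω := fun ω =>
    le_antisymm (ciSup_le (hs ω))
      (le_ciSup (f := fun a => D.lg (m a : R) ω) (Set.finite_range _).bddAbove (s ω))
  have h1 := D.smt _ T B hBli (fun c c' => (hspan c).trans (hspan c').symm) s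
  have h2 : D.Neg (fun ω => ∑ a : T, D.lg (m a : R) ω) :=
    D.neg_sum _ _ fun a _ => D.unit_neg' _
  refine D.neg_mono _ _ (Filter.Eventually.of_forall fun ω => ?_) (D.neg_add _ _ h1 h2)
  have h3 : ∑ i, Real.log (D.A (B (s ω) i) ω) =
      ∑ a : T, (if a = s ω then D.lg f ω else D.lg (m a : R) ω) := by
    refine Fintype.sum_equiv e _ _ fun i => ?_
    by_cases hi : e i = s ω
    · simp only [B, if_pos hi]
      rfl
    · simp only [B, if_neg hi]
      rfl
  have h4 : ∑ a : T, (if a = s ω then D.lg f ω else D.lg (m a : R) ω) =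
      D.lg f ω + ∑ a ∈ Finset.univ.erase (s ω), D.lg (m a : R) ω := by
    rw [← Finset.add_sum_erase _ _ (Finset.mem_univ (s ω)), if_pos rfl]
    congr 1
    refine Finset.sum_congr rfl fun a ha => ?_
    rw [if_neg (Finset.ne_of_mem_erase ha)]
  have h5 := Finset.add_sum_erase Finset.univ (fun a : T => D.lg (m a : R) ω)
    (Finset.mem_univ (s ω))
  rw [hsup, h3, h4]
  linarith

/-- the trivial upper bound -/
theorem size_ge {T : Type} [Fintype T] (m : T → Rˣ) (c0 : T → k)
    (h0 : ∑ s, algebraMap k R (c0 s) * (m s : R) ≠ 0) :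
    ∃ C : ℝ, ∀ᶠ ω in D.ev,
      D.lg (∑ s, algebraMap k R (c0 s) * (m s : R)) ω ≤ C + ⨆ s, D.lg (m s : R) ω := by
  obtain ⟨C, hC⟩ := D.lg_sum_le c0 (fun s => (m s : R)) (fun s => Units.ne_zero _) h0
  refine ⟨C, ?_⟩
  filter_upwards [hC] with ω h
  exact h _ fun i _ => le_ciSup (f := fun s => D.lg (m s : R) ω) (Set.finite_range _).bddAbove i

end Pool.Agent.P8H9.SN
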