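import Mathlib
import Pool.Agent.N754.LT.ArD
import Pool.Agent.P8H9.SN.Size
import Pool.Agent.P8H9.SN.Bnd

/-!
# Germs of integral units, and the size of a polynomial at independent units
-/

set_option autoImplicit false
set_option linter.unusedSectionVars false

open Finset MvPolynomial Filter

namespace Pool.Agent.P8H9.SN

open NumberField IsDedekindDomain
open Pool.Agent.Y742.SF Pool.Agent.Y742.AR Pool.Agent.N754.LT

variable {M : Type} [Field M] [NumberField M] [IsGalois ℚ M] (D : PD M) (𝒰 : Ultrafilter ℕ)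

/-- a representative -/
noncomputable def rp (x : BA M 𝒰) (t : ℕ) : M := rep (K := M) (𝒰 := 𝒰) x t

theorem rp_mul (x y : BA M 𝒰) : ∀ᶠ t in (𝒰 : Filter ℕ), rp 𝒰 (x * y) t = rp 𝒰 x t * rp 𝒰 y t :=
  Pool.Agent.Y742.AR.rep_mul (K := M) (𝒰 := 𝒰) x y

theorem rp_ne (x : BA M 𝒰) (hx : x ≠ 0) : ∀ᶠ t in (𝒰 : Filter ℕ), rp 𝒰 x t ≠ 0 :=
  Pool.Agent.Y742.AR.rep_ne (K := M) (𝒰 := 𝒰) x hx

theorem rp_inv (x : BA M 𝒰) (hx : x ≠ 0) :
    ∀ᶠ t in (𝒰 : Filter ℕ), rp 𝒰 x⁻¹ t = (rp 𝒰 x t)⁻¹ :=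
  Pool.Agent.Y742.AR.rep_inv (K := M) (𝒰 := 𝒰) x hx

theorem rp_aeval {r : ℕ} (x : Fin r → BA M 𝒰) (P : MvPolynomial (Fin r) M) :
    ∀ᶠ t in (𝒰 : Filter ℕ), rp 𝒰 (aeval x P) t = eval (fun i => rp 𝒰 (x i) t) P :=
  (rpA M 𝒰).rep_aeval x P

/-- the ring of integral germs -/
def TR : Subring (BA M 𝒰) where
  carrier := {x | TI D 𝒰 (rp 𝒰 x)}
  mul_mem' := by
    intro a b ha hb
    exact TI_rep_mul _ _ ha hb
  one_mem' := by
    refine (TI.const (D := D) (𝒰 := 𝒰) (1 : M)).congr ?_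
    filter_upwards [Pool.Agent.Y742.AR.rep_one (K := M) (𝒰 := 𝒰)] with t h
    exact h.symm
  add_mem' := by
    intro a b ha hb
    refine (TI.add ha hb).congr ?_
    filter_upwards [Pool.Agent.Y742.AR.rep_add (K := M) (𝒰 := 𝒰) a b] with t h
    exact h.symm
  zero_mem' := by
    refine (TI.const (D := D) (𝒰 := 𝒰) (0 : M)).congr ?_
    filter_upwards [Pool.Agent.Y742.AR.rep_zero (K := M) (𝒰 := 𝒰)] with t h
    exact h.symm
  neg_mem' := by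
    intro a ha
    refine ((TI.const (D := D) (𝒰 := 𝒰) (-1 : M)).mul ha).congr ?_
    filter_upwards [Pool.Agent.Y742.AR.rep_neg (K := M) (𝒰 := 𝒰) a] with t h
    rw [neg_one_mul]
    exact h.symm

theorem mem_TR (x : BA M 𝒰) : x ∈ TR D 𝒰 ↔ TI D 𝒰 (rp 𝒰 x) := Iff.rfl

theorem cg_mem_TR (c : M) : algebraMap M (BA M 𝒰) c ∈ TR D 𝒰 := by
  rw [mem_TR]
  refine (TI.const (D := D) (𝒰 := 𝒰) c).congr ?_
  filter_upwards [Pool.Agent.Y742.AR.rep_cg (K := M) (𝒰 := 𝒰) c] with t h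
  exact h.symm

/-- polynomial expressions are integral -/
theorem aeval_mem_TR {r : ℕ} (x : Fin r → BA M 𝒰) (hx : ∀ i, x i ∈ TR D 𝒰)
    (P : MvPolynomial (Fin r) M) : aeval x P ∈ TR D 𝒰 := by
  induction P using MvPolynomial.induction_on with
  | C a =>
    rw [← MvPolynomial.algebraMap_eq, AlgHom.commutes]
    exact cg_mem_TR D 𝒰 a
  | add p q hp hq =>
    rw [map_add]
    exact add_mem hp hq
  | mul_X p i hp =>
    rw [map_mul, aeval_X]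
    exact mul_mem hp (hx i)

/-- the group of units of the ring of integral germs -/
def WU : Subgroup (BA M 𝒰)ˣ where
  carrier := {u | (u : BA M 𝒰) ∈ TR D 𝒰 ∧ ((u⁻¹ : (BA M 𝒰)ˣ) : BA M 𝒰) ∈ TR D 𝒰}
  mul_mem' := by
    rintro a b ⟨h1, h2⟩ ⟨h3, h4⟩
    refine ⟨?_, ?_⟩
    · rw [Units.val_mul]
      exact mul_mem h1 h3
    · rw [mul_inv, Units.val_mul]
      exact mul_mem h2 h4
  one_mem' := by
    refine ⟨?_, ?_⟩
    · rw [Units.val_one]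
      exact one_mem _
    · rw [inv_one, Units.val_one]
      exact one_mem _
  inv_mem' := by
    rintro a ⟨h1, h2⟩
    exact ⟨h2, by rwa [inv_inv]⟩

theorem unitU (m : ℕ) (g : Fin m → (BA M 𝒰)ˣ) (hg : ∀ i, g i ∈ WU D 𝒰)
    (hne : ∀ i j, i ≠ j → ∀ c : M, (g i : BA M 𝒰) ≠ algebraMap M (BA M 𝒰) c * g j)
    (c : Fin m → M) (hc : ∑ i, algebraMap M (BA M 𝒰) (c i) * g i = 0) : c = 0 := by
  refine unit_ind (𝒰 := 𝒰) D m (fun i => (g i : BA M 𝒰)) (fun i => Units.ne_zero _)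
    (fun i => (hg i).1) (fun i => ?_) (fun i j hij c h => ?_) c hc
  · have h1 := (hg i).2
    rw [Units.val_inv_eq_inv_val] at h1
    exact h1
  · apply hne i j hij c
    exact (div_eq_iff (Units.ne_zero (g j))).1 h

theorem tfU (g : (BA M 𝒰)ˣ) (hg : g ∈ WU D 𝒰) (m : ℕ) (hm : 0 < m)
    (h : ∃ c : M, ((g ^ m : (BA M 𝒰)ˣ) : BA M 𝒰) = algebraMap M (BA M 𝒰) c) :
    ∃ c : M, (g : BA M 𝒰) = algebraMap M (BA M 𝒰) c := by
  classical
  obtain ⟨c, hc⟩ := h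
  have e1 : ∀ k : ℕ, ∀ᶠ t in (𝒰 : Filter ℕ),
      rp 𝒰 ((g : BA M 𝒰) ^ k) t = rp 𝒰 (g : BA M 𝒰) t ^ k := by
    intro k
    induction k with
    | zero =>
      filter_upwards [Pool.Agent.Y742.AR.rep_one (K := M) (𝒰 := 𝒰)] with t h
      rw [pow_zero, pow_zero]
      exact h
    | succ k ih =>
      filter_upwards [ih, rp_mul 𝒰 ((g : BA M 𝒰) ^ k) (g : BA M 𝒰)] with t h1 h2
      rw [pow_succ, pow_succ, ← h1]
      exact h2
  refine const_of_bdd (D := D) (𝒰 := 𝒰) (g : BA M 𝒰) hg.1 (1 + ∑ v, D.av v c) ?_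
  have e2 : ∀ᶠ t in (𝒰 : Filter ℕ), rp 𝒰 ((g : BA M 𝒰) ^ m) t = c := by
    rw [← Units.val_pow_eq_pow_val, hc]
    exact Pool.Agent.Y742.AR.rep_cg (K := M) (𝒰 := 𝒰) c
  filter_upwards [e1 m, e2] with t h1 h2 v
  have h3 : D.av v (rp 𝒰 (g : BA M 𝒰) t) ^ m = D.av v c := by
    have h4 : ∀ (x : M) (k : ℕ), D.av v (x ^ k) = D.av v x ^ k := by
      intro x k
      induction k with
      | zero => rw [pow_zero, pow_zero, D.av_one]
      | succ k ih => rw [pow_succ, pow_succ, D.av_mul, ih]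
    rw [← h4, ← h1, h2]
  have h5 : D.av v c ≤ ∑ v, D.av v c :=
    Finset.single_le_sum (f := fun v => D.av v c) (fun _ _ => D.av_nonneg _ _) (Finset.mem_univ v)
  have h6 : 0 ≤ D.av v c := D.av_nonneg _ _
  by_contra hcon
  push Not at hcon
  have h7 : 1 ≤ D.av v (rp 𝒰 (g : BA M 𝒰) t) := by
    have : 1 + ∑ v, D.av v c < D.av v (rp 𝒰 (g : BA M 𝒰) t) := hcon
    linarith
  have h8 : D.av v (rp 𝒰 (g : BA M 𝒰) t) ≤
      D.av v (rp 𝒰 (g : BA M 𝒰) t) ^ m := le_self_pow₀ h7 hm.ne'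
  rw [h3] at h8
  have : 1 + ∑ v, D.av v c < D.av v (rp 𝒰 (g : BA M 𝒰) t) := hcon
  linarith

variable {D 𝒰}

/-- elements of the ring of integral germs of bounded size -/
def mkB {N : ℕ → ℝ} {hN : ∀ t, 1 ≤ N t} (x : BA M 𝒰) (hx : TI D 𝒰 (rp 𝒰 x))
    (hx2 : Bd D N 𝒰 (rp 𝒰 x)) : RA D 𝒰 N hN :=
  (⟨x, (mem_R0 hN x).2 ⟨hx, hx2⟩⟩ : R0 D 𝒰 N hN)

theorem vl_mkB {N : ℕ → ℝ} {hN : ∀ t, 1 ≤ N t} (x : BA M 𝒰)
    (hx : TI D 𝒰 (rp 𝒰 x)) (hx2 : Bd D N 𝒰 (rp 𝒰 x)) :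
    vl D 𝒰 N hN (mkB x hx hx2) = x := rfl

/-- the absolute values -/
noncomputable def avA (D : PD M) (v : (M ≃ₐ[ℚ] M) ⊕ Fin D.s) : AbsoluteValue M ℝ where
  toFun := D.av v
  map_mul' := D.av_mul v
  nonneg' := D.av_nonneg v
  eq_zero' x := ⟨fun h => by
    by_contra hx
    exact (D.av_pos v x hx).ne' h, fun h => by rw [h, D.av_zero]⟩
  add_le' := D.av_add v

theorem avA_apply (D : PD M) (v : (M ≃ₐ[ℚ] M) ⊕ Fin D.s) (x : M) : avA D v x = D.av v x := rfl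

/-- bounded germs of integral units are units -/
theorem exists_unitR {N : ℕ → ℝ} {hN : ∀ t, 1 ≤ N t} (g : (BA M 𝒰)ˣ) (hg : g ∈ WU D 𝒰)
    (hb : ∀ᶠ t in (𝒰 : Filter ℕ), ∀ v, |Real.log (D.av v (rp 𝒰 (g : BA M 𝒰) t))| ≤ N t) :
    ∃ u : (RA D 𝒰 N hN)ˣ, vl D 𝒰 N hN (u : RA D 𝒰 N hN) = (g : BA M 𝒰) := by
  have h1 : Bd D N 𝒰 (rp 𝒰 (g : BA M 𝒰)) := by
    refine ⟨1, zero_le_one, ?_⟩
    filter_upwards [hb, rp_ne 𝒰 (g : BA M 𝒰) (Units.ne_zero _)] with t h2 h3 v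
    rw [one_mul, ← Real.log_le_iff_le_exp (D.av_pos v _ h3)]
    exact (le_abs_self _).trans (h2 v)
  have h2 : Bd D N 𝒰 (rp 𝒰 ((g⁻¹ : (BA M 𝒰)ˣ) : BA M 𝒰)) := by
    refine ⟨1, zero_le_one, ?_⟩
    rw [Units.val_inv_eq_inv_val]
    filter_upwards [hb, rp_ne 𝒰 (g : BA M 𝒰) (Units.ne_zero _),
      rp_inv 𝒰 (g : BA M 𝒰) (Units.ne_zero _)] with t h2 h3 h4 v
    rw [h4, one_mul, ← Real.log_le_iff_le_exp (D.av_pos v _ (inv_ne_zero h3)), av_inv _ _ h3]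
    exact (neg_le_abs _).trans (h2 v)
  have e1 : TI D 𝒰 (rp 𝒰 (g : BA M 𝒰)) := hg.1
  have e2 : TI D 𝒰 (rp 𝒰 ((g⁻¹ : (BA M 𝒰)ˣ) : BA M 𝒰)) := hg.2
  obtain ⟨x, hx⟩ : ∃ x : RA D 𝒰 N hN, vl D 𝒰 N hN x = (g : BA M 𝒰) := ⟨mkB _ e1 h1, rfl⟩
  obtain ⟨y, hy⟩ : ∃ y : RA D 𝒰 N hN, vl D 𝒰 N hN y = ((g⁻¹ : (BA M 𝒰)ˣ) : BA M 𝒰) :=
    ⟨mkB _ e2 h2, rfl⟩
  exact ⟨{ val := x
           inv := y
           val_inv := by
             apply vl_inj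
             rw [vl_mul, hx, hy, vl_one]
             exact Units.mul_inv g
           inv_val := by
             apply vl_inj
             rw [vl_mul, hx, hy, vl_one]
             exact Units.inv_mul g }, hx⟩

/-- monomials at germs -/
noncomputable def mu {r : ℕ} (w : Fin r → (BA M 𝒰)ˣ) (s : Fin r →₀ ℕ) : (BA M 𝒰)ˣ :=
  ∏ j, w j ^ s j

theorem mu_val {r : ℕ} (w : Fin r → (BA M 𝒰)ˣ) (s : Fin r →₀ ℕ) :
    ((mu w s : (BA M 𝒰)ˣ) : BA M 𝒰) = aeval (fun j => (w j : BA M 𝒰)) (monomial s (1 : M)) := by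
  rw [aeval_monomial, Finsupp.prod_fintype _ _ (fun _ => pow_zero _), map_one, one_mul]
  unfold mu
  rw [Units.coe_prod]
  exact Finset.prod_congr rfl fun i _ => Units.val_pow_eq_pow_val _ _

theorem mu_mem {r : ℕ} (w : Fin r → (BA M 𝒰)ˣ) (hw : ∀ j, w j ∈ WU D 𝒰) (s : Fin r →₀ ℕ) :
    mu w s ∈ WU D 𝒰 :=
  Subgroup.prod_mem _ fun j _ => Subgroup.pow_mem _ (hw j) _

theorem rp_mu {r : ℕ} (w : Fin r → (BA M 𝒰)ˣ) (s : Fin r →₀ ℕ) :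
    ∀ᶠ t in (𝒰 : Filter ℕ), rp 𝒰 (mu w s : (BA M 𝒰)ˣ) t =
      ∏ j, rp 𝒰 (w j : BA M 𝒰) t ^ s j := by
  rw [mu_val]
  filter_upwards [rp_aeval 𝒰 (fun j => (w j : BA M 𝒰)) (monomial s (1 : M))] with t h
  rw [h, eval_monomial, one_mul, Finsupp.prod_fintype _ _ (fun _ => pow_zero _)]

/-- the logarithm of the largest monomial -/
theorem log_sz {L : Type} [Field L] (f : AbsoluteValue L ℝ) {r : ℕ}
    (P : MvPolynomial (Fin r) L) (hP : P ≠ 0) (x : Fin r → L) (hx : ∀ j, x j ≠ 0) (c : ℝ) :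
    ⨆ s : P.support, (Real.log (f (∏ j, x j ^ s.1 j)) - c) = Real.log (sz f P x) - c := by
  classical
  have hne : Nonempty P.support := by
    obtain ⟨s, hs⟩ := support_nonempty.2 hP
    exact ⟨⟨s, hs⟩⟩
  obtain ⟨s0, hs0⟩ := Finite.exists_max (fun s : P.support => f (∏ j, x j ^ s.1 j))
  have hpos : ∀ s : P.support, 0 < f (∏ j, x j ^ s.1 j) := fun s =>
    f.pos (Finset.prod_ne_zero_iff.2 fun j _ => pow_ne_zero _ (hx j))
  have h1 : sz f P x = f (∏ j, x j ^ s0.1 j) :=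
    le_antisymm (ciSup_le hs0) (le_sz f P x s0.1 s0.2)
  rw [h1]
  refine le_antisymm (ciSup_le fun s => ?_) ?_
  · exact sub_le_sub_right (Real.log_le_log (hpos s) (hs0 s)) _
  · exact le_ciSup (f := fun s : P.support => Real.log (f (∏ j, x j ^ s.1 j)) - c)
      (Set.finite_range _).bddAbove s0

/-- the size of a polynomial at independent units is the size of its largest monomial -/
theorem size_germ {r : ℕ} (w : Fin r → (BA M 𝒰)ˣ) (hw : ∀ j, w j ∈ WU D 𝒰)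
    (hAI : AlgebraicIndependent M (fun j => (w j : BA M 𝒰))) (P : MvPolynomial (Fin r) M)
    (hP : P ≠ 0) (s0 : Fin r →₀ ℕ) (N : ℕ → ℝ) (hN : ∀ t, 1 ≤ N t)
    (hNt : Tendsto N (𝒰 : Filter ℕ) atTop)
    (hbd : ∀ s ∈ P.support, ∀ᶠ t in (𝒰 : Filter ℕ), ∀ v,
      |Real.log (D.av v (∏ j, rp 𝒰 (w j : BA M 𝒰) t ^ s j)) -
        Real.log (D.av v (∏ j, rp 𝒰 (w j : BA M 𝒰) t ^ s0 j))| ≤ N t) (ε : ℝ) (hε : 0 < ε) :
    ∀ᶠ t in (𝒰 : Filter ℕ), ∑ v, (Real.log (sz (avA D v) P (fun j => rp 𝒰 (w j : BA M 𝒰) t)) -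
      Real.log (D.av v (eval (fun j => rp 𝒰 (w j : BA M 𝒰) t) P))) ≤ ε * N t := by
  classical
  have hne : Nonempty P.support := by
    obtain ⟨s, hs⟩ := support_nonempty.2 hP
    exact ⟨⟨s, hs⟩⟩
  have hw0 : ∀ᶠ t in (𝒰 : Filter ℕ), ∀ j, rp 𝒰 (w j : BA M 𝒰) t ≠ 0 :=
    (Filter.eventually_all).2 fun j => rp_ne 𝒰 _ (Units.ne_zero _)
  -- the ratios
  let g : P.support → (BA M 𝒰)ˣ := fun s => mu w s.1 * (mu w s0)⁻¹
  have hg : ∀ s, g s ∈ WU D 𝒰 := fun s =>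
    Subgroup.mul_mem _ (mu_mem w hw _) (Subgroup.inv_mem _ (mu_mem w hw _))
  have hgr : ∀ s, ∀ᶠ t in (𝒰 : Filter ℕ), ∀ v, Real.log (D.av v (rp 𝒰 (g s : BA M 𝒰) t)) =
      Real.log (D.av v (∏ j, rp 𝒰 (w j : BA M 𝒰) t ^ s.1 j)) -
        Real.log (D.av v (∏ j, rp 𝒰 (w j : BA M 𝒰) t ^ s0 j)) := by
    intro s
    have h1 : ((g s : (BA M 𝒰)ˣ) : BA M 𝒰) = (mu w s.1 : (BA M 𝒰)ˣ) *
        ((mu w s0 : (BA M 𝒰)ˣ) : BA M 𝒰)⁻¹ := by
      simp only [g]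
      rw [Units.val_mul, Units.val_inv_eq_inv_val]
    filter_upwards [hw0, rp_mul 𝒰 (mu w s.1 : (BA M 𝒰)ˣ) ((mu w s0 : (BA M 𝒰)ˣ) : BA M 𝒰)⁻¹,
      rp_inv 𝒰 ((mu w s0 : (BA M 𝒰)ˣ) : BA M 𝒰) (Units.ne_zero _), rp_mu w s.1,
      rp_mu w s0] with t h2 h3 h4 h5 h6 v
    have h7 : ∀ s : Fin r →₀ ℕ, ∏ j, rp 𝒰 (w j : BA M 𝒰) t ^ s j ≠ 0 := fun s =>
      Finset.prod_ne_zero_iff.2 fun j _ => pow_ne_zero _ (h2 j)
    rw [h1, h3, h4, h5, h6, D.av_mul, Real.log_mul (D.av_pos v _ (h7 _)).ne'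
      (D.av_pos v _ (inv_ne_zero (h7 _))).ne', av_inv _ _ (h7 _)]
    ring
  choose m hm using fun s : P.support => exists_unitR (hN := hN) (N := N) (g s) (hg s) (by
    filter_upwards [hgr s, hbd s.1 s.2] with t h1 h2 v
    rw [h1]
    exact h2 v)
  -- independence
  have hinj : Function.Injective (aeval (R := M) fun j => (w j : BA M 𝒰)) := hAI
  have hmu : ∀ c : P.support → M, ∑ s, algebraMap M (BA M 𝒰) (c s) * (g s : BA M 𝒰) =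
      aeval (fun j => (w j : BA M 𝒰)) (∑ s, monomial s.1 (c s)) *
        ((mu w s0 : (BA M 𝒰)ˣ) : BA M 𝒰)⁻¹ := by
    intro c
    rw [map_sum, Finset.sum_mul]
    refine Finset.sum_congr rfl fun s _ => ?_
    have h1 : (monomial s.1 (c s) : MvPolynomial (Fin r) M) = C (c s) * monomial s.1 1 := by
      rw [C_mul_monomial, mul_one]
    rw [h1, map_mul, ← mu_val, ← MvPolynomial.algebraMap_eq, AlgHom.commutes]
    simp only [g]
    rw [Units.val_mul, Units.val_inv_eq_inv_val]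
    ring
  have hvl : ∀ c : P.support → M, vl D 𝒰 N hN (∑ s, algebraMap M (RA D 𝒰 N hN) (c s) *
      (m s : RA D 𝒰 N hN)) = aeval (fun j => (w j : BA M 𝒰)) (∑ s, monomial s.1 (c s)) *
        ((mu w s0 : (BA M 𝒰)ˣ) : BA M 𝒰)⁻¹ := by
    intro c
    rw [vl_sum, ← hmu]
    refine Finset.sum_congr rfl fun s _ => ?_
    rw [vl_mul, hm, vl_const]
    rfl
  have hmuw0 : ((mu w s0 : (BA M 𝒰)ˣ) : BA M 𝒰)⁻¹ ≠ 0 := inv_ne_zero (Units.ne_zero _)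
  have hli : LinearIndependent M (fun s => (m s : RA D 𝒰 N hN)) := by
    rw [Fintype.linearIndependent_iff]
    intro c hc s
    have h1 := hvl c
    simp only [Algebra.smul_def] at hc
    rw [hc, vl_zero] at h1
    have h2 := (mul_eq_zero.1 h1.symm).resolve_right hmuw0
    have h3 : ∑ s : P.support, monomial s.1 (c s) = 0 := hinj (h2.trans (map_zero _).symm)
    have h4 := congrArg (coeff s.1) h3
    rw [coeff_sum, Finset.sum_eq_single s] at h4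
    · rw [coeff_monomial, if_pos rfl, coeff_zero] at h4
      exact h4
    · intro b' _ hb'
      rw [coeff_monomial, if_neg]
      exact fun h => hb' (Subtype.ext h)
    · intro h
      exact absurd (Finset.mem_univ _) h
  have hcoef : ∀ s : P.support, coeff s.1 P ≠ 0 := fun s => mem_support_iff.1 s.2
  have h1 := size_le (DcA (D := D) (hN := hN) hNt) m hli (fun s => coeff s.1 P) hcoef ε hε
  have hPsum : ∑ s : P.support, monomial s.1 (coeff s.1 P) = P := by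
    conv_rhs => rw [P.as_sum, ← Finset.sum_coe_sort]
  have h2 := hvl (fun s => coeff s.1 P)
  rw [hPsum] at h2
  have hPw0 : aeval (fun j => (w j : BA M 𝒰)) P ≠ 0 := fun h => hP (hinj (by rw [h, map_zero]))
  filter_upwards [h1, hw0, rp_mul 𝒰 (aeval (fun j => (w j : BA M 𝒰)) P)
      ((mu w s0 : (BA M 𝒰)ˣ) : BA M 𝒰)⁻¹,
      rp_inv 𝒰 ((mu w s0 : (BA M 𝒰)ˣ) : BA M 𝒰) (Units.ne_zero _), rp_mu w s0,
      rp_aeval 𝒰 (fun j => (w j : BA M 𝒰)) P, rp_ne 𝒰 _ hPw0,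
      (Filter.eventually_all).2 hgr] with t e1 e2 e3 e4 e5 e6 e7 e8
  refine le_trans (Finset.sum_le_sum fun v _ => ?_) e1
  have h7 : ∏ j, rp 𝒰 (w j : BA M 𝒰) t ^ s0 j ≠ 0 :=
    Finset.prod_ne_zero_iff.2 fun j _ => pow_ne_zero _ (e2 j)
  have h8 : eval (fun j => rp 𝒰 (w j : BA M 𝒰) t) P ≠ 0 := by
    rw [← e6]
    exact e7
  have h9 : (DcA (D := D) (hN := hN) hNt).lg (∑ s, algebraMap M (RA D 𝒰 N hN) (coeff s.1 P) *
      (m s : RA D 𝒰 N hN)) (v, t) = Real.log (D.av v (eval (fun j => rp 𝒰 (w j : BA M 𝒰) t) P)) -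
        Real.log (D.av v (∏ j, rp 𝒰 (w j : BA M 𝒰) t ^ s0 j)) := by
    show Real.log (D.av v (rp 𝒰 (vl D 𝒰 N hN _) t)) = _
    rw [h2, e3, e4, e5, e6, D.av_mul, Real.log_mul (D.av_pos v _ h8).ne'
      (D.av_pos v _ (inv_ne_zero h7)).ne', av_inv _ _ h7]
    ring
  have h10 : (⨆ s, (DcA (D := D) (hN := hN) hNt).lg (m s : RA D 𝒰 N hN) (v, t)) =
      Real.log (sz (avA D v) P (fun j => rp 𝒰 (w j : BA M 𝒰) t)) -
        Real.log (D.av v (∏ j, rp 𝒰 (w j : BA M 𝒰) t ^ s0 j)) := by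
    rw [← log_sz (avA D v) P hP _ e2]
    congr 1
    funext s
    show Real.log (D.av v (rp 𝒰 (vl D 𝒰 N hN _) t)) = _
    rw [hm, e8 s v]
    rfl
  rw [h9, h10]
  linarith

end Pool.Agent.P8H9.SN
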