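import Mathlib
import Pool.Agent.P8H9.SN.Grm

/-!
# Logarithmic forms of the bounds
-/

set_option autoImplicit false
set_option linter.unusedSectionVars false

open Finset MvPolynomial Filter

namespace Pool.Agent.P8H9.SN

open NumberField IsDedekindDomain
open Pool.Agent.Y742.SF Pool.Agent.Y742.AR Pool.Agent.N754.LT

variable {M : Type} [Field M] [NumberField M] [IsGalois ℚ M] (D : PD M)

theorem sz_pos {L : Type} [Field L] (f : AbsoluteValue L ℝ) {r : ℕ}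
    (P : MvPolynomial (Fin r) L) (hP : P ≠ 0) (x : Fin r → L) (hx : ∀ j, x j ≠ 0) :
    0 < sz f P x := by
  obtain ⟨s, hs⟩ := support_nonempty.2 hP
  exact lt_of_lt_of_le (f.pos (Finset.prod_ne_zero_iff.2 fun j _ => pow_ne_zero _ (hx j)))
    (le_sz f P x s hs)

/-- the values of a polynomial -/
theorem log_eval_le {r : ℕ} (P : MvPolynomial (Fin r) M) (hP : P ≠ 0) :
    ∃ C : ℝ, ∀ (v : (M ≃ₐ[ℚ] M) ⊕ Fin D.s) (x : Fin r → M), (∀ j, x j ≠ 0) → eval x P ≠ 0 →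
      Real.log (D.av v (eval x P)) ≤ C + Real.log (sz (avA D v) P x) := by
  classical
  choose C hC0 hC using fun v : (M ≃ₐ[ℚ] M) ⊕ Fin D.s => bnd_eval (avA D v) P
  have hS0 : 0 ≤ ∑ v, C v := Finset.sum_nonneg fun v _ => hC0 v
  refine ⟨Real.log (∑ v, C v + 1), fun v x hx h => ?_⟩
  have h1 : D.av v (eval x P) ≤ (∑ v, C v + 1) * sz (avA D v) P x := by
    refine ((hC v x).1).trans (mul_le_mul_of_nonneg_right ?_ (sz_nonneg _ _ _))
    have := Finset.single_le_sum (f := C) (fun v _ => hC0 v) (Finset.mem_univ v)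
    linarith
  have h2 := Real.log_le_log (D.av_pos v _ h) h1
  rw [Real.log_mul (by positivity) (sz_pos _ _ hP x hx).ne'] at h2
  exact h2

/-- the Jacobian determinant -/
theorem log_jac_le {r m : ℕ} (A : Fin (m + 2) → MvPolynomial (Fin r) M) (hA : ∀ σ, A σ ≠ 0)
    (hsum : ∑ σ, A σ = 0) (κ : Fin m → Fin r) :
    ∃ C : ℝ, ∀ (v : (M ≃ₐ[ℚ] M) ⊕ Fin D.s) (x : Fin r → M), (∀ j, x j ≠ 0) →
      eval x ((∏ i, X (κ i)) *
        jac (fun c : Fin (m + 1) => A c.castSucc) (fun i => pderiv (κ i))) ≠ 0 → ∀ σ0,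
      Real.log (D.av v (eval x ((∏ i, X (κ i)) *
        jac (fun c : Fin (m + 1) => A c.castSucc) (fun i => pderiv (κ i))))) +
        Real.log (sz (avA D v) (A σ0) x) ≤ C + ∑ σ, Real.log (sz (avA D v) (A σ) x) := by
  classical
  choose C hC0 hC using fun v : (M ≃ₐ[ℚ] M) ⊕ Fin D.s => jac_bound (avA D v) A hsum κ
  have hS0 : 0 ≤ ∑ v, C v := Finset.sum_nonneg fun v _ => hC0 v
  refine ⟨Real.log (∑ v, C v + 1), fun v x hx h σ0 => ?_⟩
  have hprod : 0 < ∏ c : Fin (m + 1), sz (avA D v) (A (σ0.succAbove c)) x :=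
    Finset.prod_pos fun c _ => sz_pos _ _ (hA _) x hx
  have h1 : D.av v (eval x ((∏ i, X (κ i)) *
      jac (fun c : Fin (m + 1) => A c.castSucc) (fun i => pderiv (κ i)))) ≤
      (∑ v, C v + 1) * ∏ c : Fin (m + 1), sz (avA D v) (A (σ0.succAbove c)) x := by
    refine (hC v x σ0).trans (mul_le_mul_of_nonneg_right ?_ hprod.le)
    have := Finset.single_le_sum (f := C) (fun v _ => hC0 v) (Finset.mem_univ v)
    linarith
  have h2 := Real.log_le_log (D.av_pos v _ h) h1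
  rw [Real.log_mul (by positivity) hprod.ne',
    Real.log_prod fun c _ => (sz_pos _ _ (hA _) x hx).ne'] at h2
  rw [Fin.sum_univ_succAbove (fun σ => Real.log (sz (avA D v) (A σ) x)) σ0]
  linarith

/-- the product formula for units -/
theorem usum {𝒰 : Ultrafilter ℕ} (g : (BA M 𝒰)ˣ) (hg : g ∈ WU D 𝒰) :
    ∃ C : ℝ, 0 ≤ C ∧ ∀ᶠ t in (𝒰 : Filter ℕ),
      |∑ v, Real.log (D.av v (rp 𝒰 (g : BA M 𝒰) t))| ≤ C := by
  obtain ⟨C1, h1⟩ := lbdd (D := D) (𝒰 := 𝒰) (g : BA M 𝒰) (Units.ne_zero g) hg.1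
  obtain ⟨C2, h2⟩ := ubdd (D := D) (𝒰 := 𝒰) (g : BA M 𝒰) (Units.ne_zero g) (by
    have h3 := hg.2
    rw [Units.val_inv_eq_inv_val] at h3
    exact h3)
  refine ⟨|C1| + |C2|, by positivity, ?_⟩
  filter_upwards [h1, h2] with t h3 h4
  have h5 : -C1 ≤ ∑ v, Real.log (D.av v (rp 𝒰 (g : BA M 𝒰) t)) := h3
  have h6 : ∑ v, Real.log (D.av v (rp 𝒰 (g : BA M 𝒰) t)) ≤ C2 := h4
  rw [abs_le]
  have := le_abs_self C1
  have := le_abs_self C2
  have := abs_nonneg C1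
  have := abs_nonneg C2
  constructor <;> linarith

theorem lsum {𝒰 : Ultrafilter ℕ} (g : BA M 𝒰) (hg0 : g ≠ 0) (hg : g ∈ TR D 𝒰) :
    ∃ C : ℝ, ∀ᶠ t in (𝒰 : Filter ℕ), -C ≤ ∑ v, Real.log (D.av v (rp 𝒰 g t)) :=
  lbdd (D := D) (𝒰 := 𝒰) g hg0 hg

theorem log_av_mul (v : (M ≃ₐ[ℚ] M) ⊕ Fin D.s) (x y : M) (hx : x ≠ 0) (hy : y ≠ 0) :
    Real.log (D.av v (x * y)) = Real.log (D.av v x) + Real.log (D.av v y) := by
  rw [D.av_mul, Real.log_mul (D.av_pos v _ hx).ne' (D.av_pos v _ hy).ne']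

theorem log_av_prod {ι : Type} (s : Finset ι) (v : (M ≃ₐ[ℚ] M) ⊕ Fin D.s) (x : ι → M)
    (hx : ∀ i ∈ s, x i ≠ 0) :
    Real.log (D.av v (∏ i ∈ s, x i)) = ∑ i ∈ s, Real.log (D.av v (x i)) := by
  have h1 : D.av v (∏ i ∈ s, x i) = ∏ i ∈ s, D.av v (x i) := map_prod (avA D v) x s
  rw [h1, Real.log_prod fun i hi => (D.av_pos v _ (hx i hi)).ne']

/-- the height is at most the size of the largest monomial -/
theorem height_le (hHT : S_HT) {𝒰 : Ultrafilter ℕ} {r m : ℕ} (w : Fin r → (BA M 𝒰)ˣ)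
    (hw : ∀ j, w j ∈ WU D 𝒰) (hAI : AlgebraicIndependent M (fun j => (w j : BA M 𝒰)))
    (A : Fin (m + 2) → MvPolynomial (Fin r) M) (hA : ∀ σ, A σ ≠ 0) (α : Fin (m + 2) → BA M 𝒰)
    (hα0 : ∀ σ, α σ ≠ 0) (g : BA M 𝒰)
    (hg : ∀ σ, α σ = g * aeval (fun j => (w j : BA M 𝒰)) (A σ)) :
    ∃ C : ℝ, ∀ᶠ t in (𝒰 : Filter ℕ), Height.logHeight (fun σ => rp 𝒰 (α σ) t) ≤
      C + ∑ v, ⨆ σ, Real.log (sz (avA D v) (A σ) (fun j => rp 𝒰 (w j : BA M 𝒰) t)) := by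
  classical
  have hinj : Function.Injective (aeval (R := M) fun j => (w j : BA M 𝒰)) := hAI
  have hg0 : g ≠ 0 := by
    intro h
    apply hα0 0
    rw [hg, h]
    exact zero_mul _
  have hTR : ∀ σ, aeval (fun j => (w j : BA M 𝒰)) (A σ) ∈ TR D 𝒰 := fun σ =>
    aeval_mem_TR D 𝒰 _ (fun j => (hw j).1) _
  obtain ⟨e, he, hden⟩ := common_den (D := D) (𝒰 := 𝒰)
    (fun σ : Fin (m + 2) => aeval (fun j => (w j : BA M 𝒰)) (A σ)) hTR
  have heK : (e : M) ≠ 0 := RingOfIntegers.coe_ne_zero_iff.2 he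
  choose C hC using fun σ => log_eval_le D (A σ) (hA σ)
  refine ⟨∑ v : (M ≃ₐ[ℚ] M) ⊕ Fin D.s, (Real.log (D.av v (e : M)) + ∑ σ, |C σ|), ?_⟩
  have h1 : ∀ᶠ t in (𝒰 : Filter ℕ), ∀ σ, rp 𝒰 (α σ) t =
      rp 𝒰 g t * eval (fun j => rp 𝒰 (w j : BA M 𝒰) t) (A σ) := by
    refine (Filter.eventually_all).2 fun σ => ?_
    rw [hg]
    filter_upwards [rp_mul 𝒰 g (aeval (fun j => (w j : BA M 𝒰)) (A σ)),
      rp_aeval 𝒰 (fun j => (w j : BA M 𝒰)) (A σ)] with t h2 h3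
    rw [h2, h3]
  have h2 : ∀ᶠ t in (𝒰 : Filter ℕ), ∀ σ, rp 𝒰 (aeval (fun j => (w j : BA M 𝒰)) (A σ)) t =
      eval (fun j => rp 𝒰 (w j : BA M 𝒰) t) (A σ) :=
    (Filter.eventually_all).2 fun σ => rp_aeval 𝒰 _ _
  have h3 : ∀ᶠ t in (𝒰 : Filter ℕ), ∀ σ, rp 𝒰 (α σ) t ≠ 0 :=
    (Filter.eventually_all).2 fun σ => rp_ne 𝒰 _ (hα0 σ)
  have h4 : ∀ᶠ t in (𝒰 : Filter ℕ), ∀ j, rp 𝒰 (w j : BA M 𝒰) t ≠ 0 :=
    (Filter.eventually_all).2 fun j => rp_ne 𝒰 _ (Units.ne_zero _)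
  filter_upwards [h1, h2, h3, h4, rp_ne 𝒰 g hg0, hden] with t e1 e2 e3 e4 e5 e6
  obtain ⟨x, hx⟩ : ∃ x : Fin r → M, x = fun j => rp 𝒰 (w j : BA M 𝒰) t := ⟨_, rfl⟩
  rw [← hx]
  simp only [← hx] at e1 e2
  have e4' : ∀ j, x j ≠ 0 := fun j => by rw [hx]; exact e4 j
  have hev : ∀ σ, eval x (A σ) ≠ 0 := fun σ h => e3 σ (by rw [e1, h, mul_zero])
  have hvec : (fun σ => rp 𝒰 (α σ) t) = (rp 𝒰 g t * (e : M)⁻¹) •
      (fun σ => (e : M) * eval x (A σ)) := by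
    funext σ
    rw [e1, Pi.smul_apply, smul_eq_mul]
    field_simp
  rw [hvec, Height.logHeight_smul_eq_logHeight _ (mul_ne_zero e5 (inv_ne_zero heK))]
  refine (hHT M D (m + 2) (fun σ => (e : M) * eval x (A σ)) (fun h => ?_) (fun σ => ?_)).trans ?_
  · exact mul_ne_zero heK (hev 0) (congrFun h 0)
  · have h7 := e6 σ
    have h8 : rep (K := M) (𝒰 := 𝒰) (aeval (fun j => (w j : BA M 𝒰)) (A σ)) t = eval x (A σ) :=
      e2 σ
    rw [h8] at h7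
    exact h7
  · rw [← Finset.sum_add_distrib]
    refine Finset.sum_le_sum fun v _ => ?_
    obtain ⟨σ1, hσ1⟩ := Finite.exists_max (fun σ => D.av v ((e : M) * eval x (A σ)))
    have h7 : ⨆ σ, D.av v ((e : M) * eval x (A σ)) = D.av v ((e : M) * eval x (A σ1)) :=
      le_antisymm (ciSup_le hσ1) (le_ciSup (f := fun σ => D.av v ((e : M) * eval x (A σ)))
        (Set.finite_range _).bddAbove σ1)
    rw [h7, log_av_mul D v _ _ heK (hev σ1)]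
    have h8 := hC σ1 v x e4' (hev σ1)
    have h9 : Real.log (sz (avA D v) (A σ1) x) ≤ ⨆ σ, Real.log (sz (avA D v) (A σ) x) :=
      le_ciSup (f := fun σ => Real.log (sz (avA D v) (A σ) x)) (Set.finite_range _).bddAbove σ1
    have h10 : C σ1 ≤ ∑ σ, |C σ| := (le_abs_self _).trans
      (Finset.single_le_sum (f := fun σ => |C σ|) (fun _ _ => abs_nonneg _) (Finset.mem_univ σ1))
    linarith

end Pool.Agent.P8H9.SN
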