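import Mathlib
import Pool.Agent.P8H9.SN.Lg
import Pool.Agent.P8H9.SN.Alg2

/-!
# The inequality for germs
-/

set_option autoImplicit false
set_option linter.unusedSectionVars false

open Finset MvPolynomial Filter

namespace Pool.Agent.P8H9.SN

open NumberField IsDedekindDomain
open Pool.Agent.Y742.SF Pool.Agent.Y742.AR Pool.Agent.N754.LT

variable {M : Type} [Field M] [NumberField M] [IsGalois ℚ M] (D : PD M)

/-- the size of the largest monomial -/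
noncomputable def HH {r m : ℕ} (A : Fin (m + 2) → MvPolynomial (Fin r) M) (x : Fin r → M) : ℝ :=
  ∑ v, ⨆ σ, Real.log (sz (avA D v) (A σ) x)

theorem le_sup {r m : ℕ} (A : Fin (m + 2) → MvPolynomial (Fin r) M) (x : Fin r → M)
    (v : (M ≃ₐ[ℚ] M) ⊕ Fin D.s) (σ : Fin (m + 2)) :
    Real.log (sz (avA D v) (A σ) x) ≤ ⨆ σ, Real.log (sz (avA D v) (A σ) x) :=
  le_ciSup (f := fun σ => Real.log (sz (avA D v) (A σ) x)) (Set.finite_range _).bddAbove σ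

/-- the first step: from the Jacobian determinant -/
theorem step1 {𝒰 : Ultrafilter ℕ} {r m : ℕ} (w : Fin r → (BA M 𝒰)ˣ)
    (hw : ∀ j, w j ∈ WU D 𝒰) (hAI : AlgebraicIndependent M (fun j => (w j : BA M 𝒰)))
    (A : Fin (m + 2) → MvPolynomial (Fin r) M) (hA : ∀ σ, A σ ≠ 0) (hsum : ∑ σ, A σ = 0)
    (ρ : BA M 𝒰) (hρ0 : ρ ≠ 0) (ρp q : MvPolynomial (Fin r) M) (N0 : ℕ) (κ : Fin m → Fin r)
    (hρ : aeval (fun j => (w j : BA M 𝒰)) ρp = ρ * ∏ j, (w j : BA M 𝒰) ^ N0)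
    (hJ : jac (fun c : Fin (m + 1) => A c.castSucc) (fun i => pderiv (κ i)) ≠ 0)
    (hdiv : ρp * (∏ j, X j) * jac (fun c : Fin (m + 1) => A c.castSucc) (fun i => pderiv (κ i)) =
        q * ∏ σ, A σ) :
    ∃ C : ℝ, ∀ᶠ t in (𝒰 : Filter ℕ), HH D A (fun j => rp 𝒰 (w j : BA M 𝒰) t) ≤
      C + ∑ v, Real.log (D.av v (rp 𝒰 ρ t)) +
        ∑ σ, ∑ v, (Real.log (sz (avA D v) (A σ) (fun j => rp 𝒰 (w j : BA M 𝒰) t)) -
          Real.log (D.av v (eval (fun j => rp 𝒰 (w j : BA M 𝒰) t) (A σ)))) := by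
  classical
  have hinj : Function.Injective (aeval (R := M) fun j => (w j : BA M 𝒰)) := hAI
  obtain ⟨V, hV⟩ : ∃ V : MvPolynomial (Fin r) M, V = (∏ i, X (κ i)) *
    jac (fun c : Fin (m + 1) => A c.castSucc) (fun i => pderiv (κ i)) := ⟨_, rfl⟩
  have hXκ : (∏ i, X (κ i) : MvPolynomial (Fin r) M) ≠ 0 :=
    Finset.prod_ne_zero_iff.2 fun _ _ => X_ne_zero _
  have hV0 : V ≠ 0 := by
    rw [hV]
    exact mul_ne_zero hXκ hJ
  have hρp0 : ρp ≠ 0 := by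
    rintro rfl
    rw [map_zero] at hρ
    exact mul_ne_zero hρ0 (Finset.prod_ne_zero_iff.2 fun j _ => pow_ne_zero _ (Units.ne_zero _))
      hρ.symm
  have hq0 : q ≠ 0 := by
    rintro rfl
    rw [zero_mul] at hdiv
    refine mul_ne_zero (mul_ne_zero hρp0 ?_) hJ hdiv
    exact Finset.prod_ne_zero_iff.2 fun _ _ => X_ne_zero _
  have hpne : ∀ P : MvPolynomial (Fin r) M, P ≠ 0 → ∀ᶠ t in (𝒰 : Filter ℕ),
      eval (fun j => rp 𝒰 (w j : BA M 𝒰) t) P ≠ 0 := by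
    intro P hP
    have h1 : aeval (fun j => (w j : BA M 𝒰)) P ≠ 0 := fun h => hP (hinj (h.trans (map_zero _).symm))
    filter_upwards [rp_ne 𝒰 _ h1, rp_aeval 𝒰 (fun j => (w j : BA M 𝒰)) P] with t h2 h3
    rwa [← h3]
  obtain ⟨C1, hC1⟩ := log_jac_le D A hA hsum κ
  rw [← hV] at hC1
  -- the sums of the units
  choose Cw hCw0 hCw using fun j => usum D (w j) (hw j)
  obtain ⟨Cq, hCq⟩ := lsum D (aeval (fun j => (w j : BA M 𝒰)) q)
    (fun h => hq0 (hinj (h.trans (map_zero _).symm))) (aeval_mem_TR D 𝒰 _ (fun j => (hw j).1) _)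
  obtain ⟨CW, hCW0, hCW⟩ := usum D (∏ j, w j ^ N0) (Subgroup.prod_mem _ fun j _ =>
    Subgroup.pow_mem _ (hw j) _)
  have hWv : ((∏ j, w j ^ N0 : (BA M 𝒰)ˣ) : BA M 𝒰) = ∏ j, (w j : BA M 𝒰) ^ N0 := by
    rw [Units.coe_prod]
    exact Finset.prod_congr rfl fun i _ => Units.val_pow_eq_pow_val _ _
  rw [hWv] at hCW
  have hW0 : (∏ j, (w j : BA M 𝒰) ^ N0) ≠ 0 :=
    Finset.prod_ne_zero_iff.2 fun j _ => pow_ne_zero _ (Units.ne_zero _)
  obtain ⟨n1, hn1⟩ : ∃ n1 : ℝ, n1 = (Finset.univ : Finset ((M ≃ₐ[ℚ] M) ⊕ Fin D.s)).card := ⟨_, rfl⟩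
  refine ⟨n1 * C1 + Cq + CW + ∑ j, Cw j + ∑ i, Cw (κ i), ?_⟩
  have hw0 : ∀ᶠ t in (𝒰 : Filter ℕ), ∀ j, rp 𝒰 (w j : BA M 𝒰) t ≠ 0 :=
    (Filter.eventually_all).2 fun j => rp_ne 𝒰 _ (Units.ne_zero _)
  filter_upwards [hw0, hpne V hV0, (Filter.eventually_all).2 fun σ => hpne (A σ) (hA σ),
    hpne ρp hρp0, hpne q hq0, (Filter.eventually_all).2 hCw, hCq, hCW,
    rp_aeval 𝒰 (fun j => (w j : BA M 𝒰)) q, rp_aeval 𝒰 (fun j => (w j : BA M 𝒰)) ρp,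
    rp_mul 𝒰 ρ (∏ j, (w j : BA M 𝒰) ^ N0), rp_ne 𝒰 ρ hρ0, rp_ne 𝒰 _ hW0] with
    t e1 e2 e3 e4 e5 e6 e7 e8 e9 e10 e11 e12 e13
  obtain ⟨x, hx⟩ : ∃ x : Fin r → M, x = fun j => rp 𝒰 (w j : BA M 𝒰) t := ⟨_, rfl⟩
  have hxj : ∀ j, rp 𝒰 (w j : BA M 𝒰) t = x j := fun j => by rw [hx]
  simp only [hxj] at e1 e6
  simp only [← hx] at e2 e3 e4 e5 e9 e10 ⊢
  -- the identity
  have hid : eval x ρp * (∏ j, x j) * eval x V = eval x q * (∏ σ, eval x (A σ)) * ∏ i, x (κ i) := by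
    have h1 := congrArg (eval x) hdiv
    rw [map_mul, map_mul, map_mul, map_prod, map_prod] at h1
    simp only [eval_X] at h1
    rw [hV, map_mul, map_prod]
    simp only [eval_X]
    linear_combination (∏ i, x (κ i)) * h1
  have hxp : (∏ j, x j) ≠ 0 := Finset.prod_ne_zero_iff.2 fun j _ => e1 j
  have hxκ : (∏ i, x (κ i)) ≠ 0 := Finset.prod_ne_zero_iff.2 fun i _ => e1 _
  have hAp : (∏ σ, eval x (A σ)) ≠ 0 := Finset.prod_ne_zero_iff.2 fun σ _ => e3 σ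
  have hlog : ∀ v, Real.log (D.av v (eval x ρp)) + ∑ j, Real.log (D.av v (x j)) +
      Real.log (D.av v (eval x V)) = Real.log (D.av v (eval x q)) +
        ∑ σ, Real.log (D.av v (eval x (A σ))) + ∑ i, Real.log (D.av v (x (κ i))) := by
    intro v
    have h1 := congrArg (fun y => Real.log (D.av v y)) hid
    rw [log_av_mul D v _ _ (mul_ne_zero e4 hxp) e2, log_av_mul D v _ _ e4 hxp,
      log_av_mul D v _ _ (mul_ne_zero e5 hAp) hxκ, log_av_mul D v _ _ e5 hAp,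
      log_av_prod D _ v _ (fun j _ => e1 j), log_av_prod D _ v _ (fun σ _ => e3 σ),
      log_av_prod D _ v _ (fun i _ => e1 (κ i))] at h1
    exact h1
  have hlog2 := Finset.sum_congr (rfl : (Finset.univ : Finset ((M ≃ₐ[ℚ] M) ⊕ Fin D.s)) = _)
    fun v _ => hlog v
  simp only [Finset.sum_add_distrib] at hlog2
  -- the values
  have k1 : ∑ v, ∑ j, Real.log (D.av v (x j)) ≤ ∑ j, Cw j := by
    rw [Finset.sum_comm]
    exact Finset.sum_le_sum fun j _ => (le_abs_self _).trans (e6 j)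
  have k2 : -∑ i, Cw (κ i) ≤ ∑ v, ∑ i, Real.log (D.av v (x (κ i))) := by
    rw [Finset.sum_comm, ← Finset.sum_neg_distrib]
    exact Finset.sum_le_sum fun i _ => (abs_le.1 (e6 (κ i))).1
  have k3 : -Cq ≤ ∑ v, Real.log (D.av v (eval x q)) := by
    rw [← e9]
    exact e7
  have k4 : ∑ v, Real.log (D.av v (eval x ρp)) ≤ ∑ v, Real.log (D.av v (rp 𝒰 ρ t)) + CW := by
    rw [← e10, hρ, e11]
    have h1 : ∀ v, Real.log (D.av v (rp 𝒰 ρ t * rp 𝒰 (∏ j, (w j : BA M 𝒰) ^ N0) t)) =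
        Real.log (D.av v (rp 𝒰 ρ t)) +
          Real.log (D.av v (rp 𝒰 (∏ j, (w j : BA M 𝒰) ^ N0) t)) := fun v =>
      log_av_mul D v _ _ e12 e13
    rw [Finset.sum_congr rfl fun v _ => h1 v, Finset.sum_add_distrib]
    have := (le_abs_self _).trans e8
    linarith
  have k5 : ∀ v, Real.log (D.av v (eval x V)) + ⨆ σ, Real.log (sz (avA D v) (A σ) x) ≤
      C1 + ∑ σ, Real.log (sz (avA D v) (A σ) x) := by
    intro v
    have h1 : ⨆ σ, Real.log (sz (avA D v) (A σ) x) ≤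
        C1 + ∑ σ, Real.log (sz (avA D v) (A σ) x) - Real.log (D.av v (eval x V)) := by
      refine ciSup_le fun σ => ?_
      have := hC1 v x e1 e2 σ
      linarith
    linarith
  have k6 := Finset.sum_le_sum fun v (_ : v ∈ (Finset.univ : Finset ((M ≃ₐ[ℚ] M) ⊕ Fin D.s))) => k5 v
  simp only [Finset.sum_add_distrib, Finset.sum_const, nsmul_eq_mul] at k6
  rw [← hn1] at k6
  have k7 : ∑ σ, ∑ v, (Real.log (sz (avA D v) (A σ) x) - Real.log (D.av v (eval x (A σ)))) =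
      ∑ v, ∑ σ, Real.log (sz (avA D v) (A σ) x) - ∑ v, ∑ σ, Real.log (D.av v (eval x (A σ))) := by
    rw [Finset.sum_comm, ← Finset.sum_sub_distrib]
    exact Finset.sum_congr rfl fun v _ => Finset.sum_sub_distrib _ _
  rw [k7]
  unfold HH
  linarith

end Pool.Agent.P8H9.SN
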