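import Mathlib
import Pool.Agent.P8H9.SN.Core

/-!
# The inequality for germs, second part
-/

set_option autoImplicit false
set_option linter.unusedSectionVars false

open Finset MvPolynomial Filter

namespace Pool.Agent.P8H9.SN

open NumberField IsDedekindDomain
open Pool.Agent.Y742.SF Pool.Agent.Y742.AR Pool.Agent.N754.LT

variable {M : Type} [Field M] [NumberField M] [IsGalois ℚ M] (D : PD M)

/-- the second step -/
theorem step2 {𝒰 : Ultrafilter ℕ} {r m : ℕ} (w : Fin r → (BA M 𝒰)ˣ)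
    (hw : ∀ j, w j ∈ WU D 𝒰) (hAI : AlgebraicIndependent M (fun j => (w j : BA M 𝒰)))
    (A : Fin (m + 2) → MvPolynomial (Fin r) M) (hA : ∀ σ, A σ ≠ 0) (hsum : ∑ σ, A σ = 0)
    (ρ : BA M 𝒰) (hρ0 : ρ ≠ 0) (hρT : ρ ∈ TR D 𝒰) (ρp q : MvPolynomial (Fin r) M) (N0 : ℕ)
    (κ : Fin m → Fin r)
    (hρ : aeval (fun j => (w j : BA M 𝒰)) ρp = ρ * ∏ j, (w j : BA M 𝒰) ^ N0)
    (hJ : jac (fun c : Fin (m + 1) => A c.castSucc) (fun i => pderiv (κ i)) ≠ 0)
    (hdiv : ρp * (∏ j, X j) * jac (fun c : Fin (m + 1) => A c.castSucc) (fun i => pderiv (κ i)) =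
        q * ∏ σ, A σ) (ε : ℝ) (hε : 0 < ε) :
    ∃ C : ℝ, ∀ᶠ t in (𝒰 : Filter ℕ), HH D A (fun j => rp 𝒰 (w j : BA M 𝒰) t) ≤
      C + (1 + ε) * ∑ v, Real.log (D.av v (rp 𝒰 ρ t)) := by
  classical
  obtain ⟨C1, hC1⟩ := step1 D w hw hAI A hA hsum ρ hρ0 ρp q N0 κ hρ hJ hdiv
  obtain ⟨Cρ, hCρ⟩ := lsum D ρ hρ0 hρT
  let X : ℕ → Fin r → M := fun t j => rp 𝒰 (w j : BA M 𝒰) t
  let lam : (Fin r →₀ ℕ) → ((M ≃ₐ[ℚ] M) ⊕ Fin D.s) → ℕ → ℝ := fun s v t =>
    Real.log (D.av v (∏ j, X t j ^ s j))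
  let T : Finset (Fin r →₀ ℕ) := Finset.univ.biUnion fun σ => (A σ).support
  have hTm : ∀ σ s, s ∈ (A σ).support → s ∈ T := fun σ s hs =>
    Finset.mem_biUnion.2 ⟨σ, Finset.mem_univ σ, hs⟩
  obtain ⟨s0, hs0⟩ : ∃ s0, s0 ∈ T := by
    obtain ⟨s, hs⟩ := support_nonempty.2 (hA 0)
    exact ⟨s, hTm 0 s hs⟩
  let N : ℕ → ℝ := fun t => 1 + ∑ v, ∑ s ∈ T, |lam s v t - lam s0 v t|
  have hN1 : ∀ t, 1 ≤ N t := fun t => by
    have : 0 ≤ ∑ v, ∑ s ∈ T, |lam s v t - lam s0 v t| :=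
      Finset.sum_nonneg fun _ _ => Finset.sum_nonneg fun _ _ => abs_nonneg _
    simp only [N]
    linarith
  have hNle : ∀ t v, ∀ s ∈ T, |lam s v t - lam s0 v t| ≤ N t := by
    intro t v s hs
    have h1 : |lam s v t - lam s0 v t| ≤ ∑ s ∈ T, |lam s v t - lam s0 v t| :=
      Finset.single_le_sum (f := fun s => |lam s v t - lam s0 v t|)
        (fun _ _ => abs_nonneg _) hs
    have h2 : ∑ s ∈ T, |lam s v t - lam s0 v t| ≤ ∑ v, ∑ s ∈ T, |lam s v t - lam s0 v t| :=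
      Finset.single_le_sum (f := fun v => ∑ s ∈ T, |lam s v t - lam s0 v t|)
        (fun _ _ => Finset.sum_nonneg fun _ _ => abs_nonneg _) (Finset.mem_univ v)
    simp only [N]
    linarith
  have hw0 : ∀ᶠ t in (𝒰 : Filter ℕ), ∀ j, X t j ≠ 0 :=
    (Filter.eventually_all).2 fun j => rp_ne 𝒰 _ (Units.ne_zero _)
  -- the sums of the monomials
  have hlam : ∀ s, ∃ C : ℝ, 0 ≤ C ∧ ∀ᶠ t in (𝒰 : Filter ℕ), |∑ v, lam s v t| ≤ C := by
    intro s
    obtain ⟨C, hC0, hC⟩ := usum D (mu w s) (mu_mem w hw s)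
    refine ⟨C, hC0, ?_⟩
    filter_upwards [hC, rp_mu w s] with t h1 h2
    rw [h2] at h1
    exact h1
  choose Cl hCl0 hCl using hlam
  -- comparison of `lam` with the size
  have hlsz : ∀ σ s, s ∈ (A σ).support → ∀ t v, (∀ j, X t j ≠ 0) →
      lam s v t ≤ Real.log (sz (avA D v) (A σ) (X t)) := by
    intro σ s hs t v hx
    refine Real.log_le_log (D.av_pos v _ (Finset.prod_ne_zero_iff.2 fun j _ =>
      pow_ne_zero _ (hx j))) ?_
    exact le_sz (avA D v) (A σ) (X t) s hs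
  by_cases hbd : ∃ C, ∀ᶠ t in (𝒰 : Filter ℕ), N t ≤ C
  · -- bounded case
    obtain ⟨C, hC⟩ := hbd
    obtain ⟨n1, hn1⟩ : ∃ n1 : ℝ, n1 = (Finset.univ : Finset ((M ≃ₐ[ℚ] M) ⊕ Fin D.s)).card :=
      ⟨_, rfl⟩
    refine ⟨Cl s0 + n1 * C + (1 + ε) * Cρ, ?_⟩
    filter_upwards [hC, hw0, hCl s0, hCρ] with t h1 h2 h3 h4
    have h5 : ∀ v, ⨆ σ, Real.log (sz (avA D v) (A σ) (X t)) ≤ lam s0 v t + C := by
      intro v
      refine ciSup_le fun σ => ?_
      have h6 := log_sz (avA D v) (A σ) (hA σ) (X t) h2 0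
      rw [sub_zero] at h6
      rw [← h6]
      have hne : Nonempty (A σ).support := by
        obtain ⟨s, hs⟩ := support_nonempty.2 (hA σ)
        exact ⟨⟨s, hs⟩⟩
      refine ciSup_le fun s => ?_
      have h7 := (le_abs_self _).trans ((hNle t v s.1 (hTm σ s.1 s.2)).trans h1)
      have h8 : Real.log (avA D v (∏ j, X t j ^ s.1 j)) = lam s.1 v t := rfl
      rw [h8]
      linarith
    have h6 := Finset.sum_le_sum
      fun v (_ : v ∈ (Finset.univ : Finset ((M ≃ₐ[ℚ] M) ⊕ Fin D.s))) => h5 v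
    rw [Finset.sum_add_distrib, Finset.sum_const, nsmul_eq_mul, ← hn1] at h6
    have h7 : HH D A (X t) ≤ Cl s0 + n1 * C := by
      unfold HH
      have := (le_abs_self _).trans h3
      linarith
    have h8 : 0 ≤ (1 + ε) * (Cρ + ∑ v, Real.log (D.av v (rp 𝒰 ρ t))) := by
      refine mul_nonneg (by linarith) ?_
      linarith
    have h9 : HH D A (fun j => rp 𝒰 (w j : BA M 𝒰) t) = HH D A (X t) := rfl
    rw [h9]
    linarith
  · -- unbounded case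
    have hNt : Tendsto N (𝒰 : Filter ℕ) atTop := tendsto_of_unbdd N hbd
    obtain ⟨c, hc⟩ : ∃ c : ℝ, c = T.card := ⟨_, rfl⟩
    have hc1 : 1 ≤ c := by
      rw [hc]
      exact_mod_cast Finset.card_pos.2 ⟨s0, hs0⟩
    obtain ⟨C2, hC2⟩ : ∃ C2 : ℝ, C2 = 1 + ∑ s ∈ T, (Cl s + Cl s0) := ⟨_, rfl⟩
    -- the scale is at most a multiple of the size
    have hNH : ∀ᶠ t in (𝒰 : Filter ℕ), N t ≤ C2 + 2 * c * HH D A (X t) := by
      filter_upwards [hw0, (Filter.eventually_all_finset T).2 fun s _ => hCl s, hCl s0] with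
        t h1 h2 h3
      have h4 : ∀ s ∈ T, ∑ v, |lam s v t - lam s0 v t| ≤
          2 * HH D A (X t) + (Cl s + Cl s0) := by
        intro s hs
        have h5 : ∀ v, ∀ s ∈ T, lam s v t ≤ ⨆ σ, Real.log (sz (avA D v) (A σ) (X t)) := by
          intro v s hs
          obtain ⟨σ, -, hσ⟩ := Finset.mem_biUnion.1 hs
          exact (hlsz σ s hσ t v h1).trans (le_sup D A (X t) v σ)
        have h6 : ∀ v, |lam s v t - lam s0 v t| ≤
            2 * (⨆ σ, Real.log (sz (avA D v) (A σ) (X t))) - lam s v t - lam s0 v t := by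
          intro v
          have h7 := h5 v s hs
          have h8 := h5 v s0 hs0
          rw [abs_le]
          constructor <;> linarith
        refine (Finset.sum_le_sum fun v _ => h6 v).trans ?_
        rw [Finset.sum_sub_distrib, Finset.sum_sub_distrib, ← Finset.mul_sum]
        have h7 := (abs_le.1 (h2 s hs)).1
        have h8 := (abs_le.1 h3).1
        unfold HH
        linarith
      have h5 := Finset.sum_le_sum h4
      rw [Finset.sum_comm] at h5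
      have h6 : ∑ s ∈ T, (2 * HH D A (X t) + (Cl s + Cl s0)) =
          2 * c * HH D A (X t) + ∑ s ∈ T, (Cl s + Cl s0) := by
        rw [Finset.sum_add_distrib, Finset.sum_const, nsmul_eq_mul, ← hc]
        ring
      rw [h6] at h5
      simp only [N]
      rw [hC2]
      linarith
    -- the choice of the constants
    obtain ⟨e1, he1⟩ : ∃ e1 : ℝ, e1 = ε / ((1 + ε) * ((m + 2) * (2 * c))) := ⟨_, rfl⟩
    have he1p : 0 < e1 := by
      rw [he1]
      positivity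
    have hm2 : (0 : ℝ) < m + 2 := by positivity
    have he1c : (m + 2) * e1 * (2 * c) * (1 + ε) = ε := by
      rw [he1]
      field_simp
    have hsize : ∀ σ, ∀ᶠ t in (𝒰 : Filter ℕ),
        ∑ v, (Real.log (sz (avA D v) (A σ) (X t)) - Real.log (D.av v (eval (X t) (A σ)))) ≤
          e1 * N t := by
      intro σ
      exact size_germ w hw hAI (A σ) (hA σ) s0 N hN1 hNt (fun s hs =>
        Filter.Eventually.of_forall fun t v => hNle t v s (hTm σ s hs)) e1 he1p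
    refine ⟨(1 + ε) * (C1 + (m + 2) * e1 * C2), ?_⟩
    filter_upwards [hC1, hNH, (Filter.eventually_all).2 hsize] with t h1 h2 h3
    have h4 : ∑ σ, ∑ v, (Real.log (sz (avA D v) (A σ) (X t)) -
        Real.log (D.av v (eval (X t) (A σ)))) ≤ (m + 2) * (e1 * N t) := by
      refine (Finset.sum_le_sum fun σ _ => h3 σ).trans ?_
      rw [Finset.sum_const, Finset.card_univ, Fintype.card_fin, nsmul_eq_mul]
      push_cast
      linarith
    have h5 : HH D A (X t) ≤ C1 + ∑ v, Real.log (D.av v (rp 𝒰 ρ t)) +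
        (m + 2) * (e1 * N t) := h1.trans (by linarith)
    have h6 : (m + 2) * (e1 * N t) ≤ (m + 2) * e1 * C2 +
        (m + 2) * e1 * (2 * c) * HH D A (X t) := by
      have h7 : (m + 2) * (e1 * N t) ≤ (m + 2) * (e1 * (C2 + 2 * c * HH D A (X t))) :=
        mul_le_mul_of_nonneg_left (mul_le_mul_of_nonneg_left h2 he1p.le) hm2.le
      linarith
    have h7 : (1 + ε) * HH D A (X t) ≤ (1 + ε) * (C1 + ∑ v, Real.log (D.av v (rp 𝒰 ρ t)) +
        (m + 2) * e1 * C2) + ε * HH D A (X t) := by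
      have h8 : (1 + ε) * HH D A (X t) ≤ (1 + ε) * (C1 + ∑ v, Real.log (D.av v (rp 𝒰 ρ t)) +
          ((m + 2) * e1 * C2 + (m + 2) * e1 * (2 * c) * HH D A (X t))) :=
        mul_le_mul_of_nonneg_left (by linarith) (by linarith)
      have h9 : (1 + ε) * ((m + 2) * e1 * (2 * c) * HH D A (X t)) = ε * HH D A (X t) := by
        linear_combination (HH D A (X t)) * he1c
      linarith
    have h8 : HH D A (fun j => rp 𝒰 (w j : BA M 𝒰) t) = HH D A (X t) := rfl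
    rw [h8]
    linarith

/-- the inequality for germs -/
theorem core (hALG : S_ALG) (hJAC : S_JAC) (hHT : S_HT) {𝒰 : Ultrafilter ℕ} {ι : Type}
    [Fintype ι] (u : ι → (BA M 𝒰)ˣ) (hu : ∀ i, u i ∈ WU D 𝒰) {m : ℕ} (P : ℕ)
    (α : Fin (m + 2) → BA M 𝒰) (ρ τ : BA M 𝒰)
    (Iα : Fin (m + 2) → Finset ι) (Iρ Iτ : Finset ι) (hα : ∀ σ, α σ = ∑ i ∈ Iα σ, (u i : BA M 𝒰))
    (hρ : ρ = ∑ i ∈ Iρ, (u i : BA M 𝒰)) (hτ : τ = ∑ i ∈ Iτ, (u i : BA M 𝒰))
    (hα0 : ∀ σ, α σ ≠ 0) (hρ0 : ρ ≠ 0)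
    (hsum : ∑ σ, α σ = 0) (hrel : ρ ^ P = τ * ∏ σ, α σ)
    (hgen : ∀ G : MvPolynomial (Fin (m + 1)) M, (∃ e, G.IsHomogeneous e) → G ≠ 0 →
      aeval (fun c : Fin (m + 1) => α c.castSucc) G ≠ 0) (ε : ℝ) (hε : 0 < ε) :
    ∃ C : ℝ, ∀ᶠ t in (𝒰 : Filter ℕ), Height.logHeight (fun σ => rp 𝒰 (α σ) t) ≤
      (1 + ε) * ∑ v, Real.log (D.av v (rp 𝒰 ρ t)) + C := by
  classical
  obtain ⟨r, w, A, ρp, q, g, N0, κ, hw, hind, hAI, hA0, hAsum, hgA, hρp, hJ, hdiv⟩ :=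
    alg_part hALG hJAC (WU D 𝒰) (unitU D 𝒰) (tfU D 𝒰) u hu P α ρ τ Iα Iρ Iτ hα hρ hτ hα0 hsum
      hrel hgen
  have hρT : ρ ∈ TR D 𝒰 := by
    rw [hρ]
    exact Subring.sum_mem _ fun i _ => (hu i).1
  obtain ⟨C1, h1⟩ := step2 D w hw hAI A hA0 hAsum ρ hρ0 hρT ρp q N0 κ hρp hJ hdiv ε hε
  obtain ⟨C2, h2⟩ := height_le D hHT w hw hAI A hA0 α hα0 g hgA
  refine ⟨C1 + C2, ?_⟩
  filter_upwards [h1, h2] with t h3 h4
  unfold HH at h3
  linarith

end Pool.Agent.P8H9.SN
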