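import Mathlib
import Pool.Agent.P8H9.SN.Stm
import Pool.Agent.Y742.SF.PatK

/-!
# The absolute values of an integer
-/

set_option autoImplicit false

namespace Pool.Agent.P8H9.SN

open NumberField
open Pool.Agent.Y742.SF

theorem t_NRM : S_NRM := by
  intro L _ _ _ D y hy
  rw [Fintype.sum_sum_type]
  have h1 : ∑ σ : L ≃ₐ[ℚ] L, Real.log (D.av (Sum.inl σ) (y : L)) =
      Real.log |((Algebra.norm ℤ y : ℤ) : ℝ)| := by
    rw [Pool.Agent.Y742.SF.norm_eq_prod D.ψ y hy]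
    rfl
  have h2 : ∑ v : Fin D.s, Real.log (D.av (Sum.inr v) (y : L)) ≤ 0 :=
    Finset.sum_nonpos fun v _ => Real.log_nonpos (D.av_nonneg _ _) (fv_int (D.P v) y)
  rw [h1]
  linarith

end Pool.Agent.P8H9.SN
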