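import Mathlib
import Pool.Agent.P8H9.SN.Core2
import Pool.Agent.P8H9.SN.Nrm
import Pool.Agent.P8H75.SN.HT
import Pool.Agent.P8H75.SN.EXT
import Pool.Agent.P8H78.SN.JacT
import Pool.Agent.P8H69.SN.Alg
import Pool.Agent.Helper259.HtExt

/-!
# Sparse points over number fields: the final theorem
-/

set_option autoImplicit false
set_option linter.unusedSectionVars false

open Finset MvPolynomial Filter

namespace Pool.Agent.P8H9.SN

open NumberField IsDedekindDomain
open Pool.Agent.Y742.SF Pool.Agent.Y742.AR Pool.Agent.N754.LT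

/-- `x` is a sum of at most `l` elements of `Γ` -/
def Sparse {K : Type} [Field K] (Γ : Subgroup Kˣ) (l : ℕ) (x : K) : Prop :=
  ∃ (s : Finset (Fin l)) (u : Fin l → Kˣ), (∀ j, u j ∈ Γ) ∧ x = ∑ j ∈ s, (u j : K)

section base

variable {K L : Type} [Field K] [Field L] [Algebra K L]

/-- equations over an extension give equations over the base field -/
theorem descend {n e : ℕ} (G : MvPolynomial (Fin n) L) (hG : G.IsHomogeneous e) (hG0 : G ≠ 0) :
    ∃ G' : MvPolynomial (Fin n) K, G'.IsHomogeneous e ∧ G' ≠ 0 ∧ ∀ x : Fin n → K,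
      eval (fun i => algebraMap K L (x i)) G = 0 → eval x G' = 0 := by
  classical
  obtain ⟨d, hd⟩ := support_nonempty.2 hG0
  obtain ⟨φ, hφ⟩ : ∃ φ : Module.Dual K L, φ (coeff d G) ≠ 0 := by
    by_contra hcon
    push Not at hcon
    exact mem_support_iff.1 hd ((Module.forall_dual_apply_eq_zero_iff K _).1 hcon)
  refine ⟨∑ s ∈ G.support, monomial s (φ (coeff s G)), ?_, ?_, fun x hx => ?_⟩
  · refine IsHomogeneous.sum _ _ _ fun s hs => ?_
    refine isHomogeneous_monomial _ ?_
    exact (hG.degree_eq_sum_deg_support hs).symm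
  · intro h
    have h1 := congrArg (coeff d) h
    rw [coeff_sum, Finset.sum_eq_single d] at h1
    · rw [coeff_monomial, if_pos rfl, coeff_zero] at h1
      exact hφ h1
    · intro b _ hb
      rw [coeff_monomial, if_neg hb]
    · intro h
      exact absurd hd h
  · rw [eval_eq'] at hx
    rw [map_sum]
    have h1 := congrArg φ hx
    rw [map_sum, map_zero] at h1
    rw [← h1]
    refine Finset.sum_congr rfl fun s _ => ?_
    rw [eval_monomial, Finsupp.prod_fintype _ _ (fun _ => pow_zero _)]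
    have h2 : coeff s G * ∏ i, algebraMap K L (x i) ^ s i = (∏ i, x i ^ s i) • coeff s G := by
      rw [Algebra.smul_def, map_prod, mul_comm]
      simp only [map_pow]
    rw [h2, map_smul, smul_eq_mul, mul_comm]

end base

/-- denominators -/
theorem finite_den {L : Type} [Field L] [NumberField L] (x : L) (hx : x ≠ 0) :
    {v : HeightOneSpectrum (𝓞 L) | ¬ fv v x ≤ 1}.Finite := by
  obtain ⟨a, b, hb, rfl⟩ := IsFractionRing.div_surjective (A := 𝓞 L) x
  have hb0 : b ≠ 0 := nonZeroDivisors.ne_zero hb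
  have h1 := Ideal.finite_factors (I := Ideal.span {b}) (by
    rw [Ne, Ideal.zero_eq_bot, Ideal.span_singleton_eq_bot]
    exact hb0)
  refine h1.subset fun v hv => ?_
  rw [Set.mem_ofPred_eq, Ideal.dvd_span_singleton]
  by_contra h2
  apply hv
  rw [fv_div, (fv_eq_one_iff v b).2 h2, div_one]
  exact fv_int v a

/-- place data for a finitely generated group -/
theorem exists_PD_fg {K L : Type} [Field K] [Field L] [NumberField L] [Algebra K L]
    [IsGalois ℚ L] (hi : ∃ z : L, z ^ 2 = -1) (Γ : Subgroup Kˣ) (hΓ : Γ.FG) :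
    ∃ D : PD L, ∀ g ∈ Γ, D.TInt (algebraMap K L (g : K)) ∧ D.TInt (algebraMap K L (g : K))⁻¹ := by
  classical
  obtain ⟨S, hS⟩ := hΓ
  have hne : ∀ g : Kˣ, algebraMap K L (g : K) ≠ 0 := fun g => (map_ne_zero _).2 g.ne_zero
  obtain ⟨D, hD⟩ := exists_PD hi
    (⋃ g ∈ S, ({v : HeightOneSpectrum (𝓞 L) | ¬ fv v (algebraMap K L (g : K)) ≤ 1} ∪
      {v : HeightOneSpectrum (𝓞 L) | ¬ fv v (algebraMap K L (g : K))⁻¹ ≤ 1}))
    (Set.Finite.biUnion S.finite_toSet fun g _ =>
      (finite_den _ (hne g)).union (finite_den _ (inv_ne_zero (hne g))))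
  refine ⟨D, ?_⟩
  let Λ : Subgroup Kˣ :=
    { carrier := {g | D.TInt (algebraMap K L (g : K)) ∧ D.TInt (algebraMap K L (g : K))⁻¹}
      mul_mem' := by
        rintro a b ⟨h1, h2⟩ ⟨h3, h4⟩
        refine ⟨?_, ?_⟩
        · rw [Units.val_mul, map_mul]
          exact D.TInt_mul _ _ h1 h3
        · rw [Units.val_mul, map_mul, mul_inv]
          exact D.TInt_mul _ _ h2 h4
      one_mem' := by
        refine ⟨?_, ?_⟩
        · rw [Units.val_one, map_one]
          exact D.TInt_one
        · rw [Units.val_one, map_one, inv_one]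
          exact D.TInt_one
      inv_mem' := by
        rintro a ⟨h1, h2⟩
        refine ⟨?_, ?_⟩
        · rw [Units.val_inv_eq_inv_val, map_inv₀]
          exact h2
        · rw [Units.val_inv_eq_inv_val, map_inv₀, inv_inv]
          exact h1 }
  have hle : Γ ≤ Λ := by
    rw [← hS, Subgroup.closure_le]
    intro g hg
    have key : ∀ v : HeightOneSpectrum (𝓞 L), (∀ w, v ≠ D.P w) →
        fv v (algebraMap K L (g : K)) ≤ 1 ∧ fv v (algebraMap K L (g : K))⁻¹ ≤ 1 := by
      intro v hv
      by_contra hcon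
      have h1 : v ∈ (⋃ g ∈ S, ({v : HeightOneSpectrum (𝓞 L) |
          ¬ fv v (algebraMap K L ((g : Kˣ) : K)) ≤ 1} ∪
          {v : HeightOneSpectrum (𝓞 L) | ¬ fv v (algebraMap K L ((g : Kˣ) : K))⁻¹ ≤ 1})) := by
        rw [Set.mem_iUnion₂]
        refine ⟨g, hg, ?_⟩
        rw [not_and_or] at hcon
        exact hcon
      obtain ⟨w, hw⟩ := hD v h1
      exact hv w hw
    exact ⟨fun v hv => (key v hv).1, fun v hv => (key v hv).2⟩
  exact fun g hg => hle hg

end Pool.Agent.P8H9.SN
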