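import Mathlib
import Pool.Agent.P8H9.SN.Fin

/-!
# Sparse points over number fields: the main theorem
-/

set_option autoImplicit false
set_option linter.unusedSectionVars false

open Finset MvPolynomial Filter

namespace Pool.Agent.P8H9.SN

open NumberField IsDedekindDomain
open Pool.Agent.Y742.SF Pool.Agent.Y742.AR Pool.Agent.N754.LT

/-- the germ of a sequence -/
noncomputable def gmB {L : Type} [Field L] [NumberField L] (𝒰 : Ultrafilter ℕ) :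
    (ℕ → L) →+* BA L 𝒰 := (gm 𝒰 : (ℕ → L) →+* GK L 𝒰)

theorem gmB_eq {L : Type} [Field L] [NumberField L] (𝒰 : Ultrafilter ℕ) (f g : ℕ → L) :
    gmB 𝒰 f = gmB 𝒰 g ↔ ∀ᶠ t in (𝒰 : Filter ℕ), f t = g t := gm_eq 𝒰 f g

theorem rp_gmB {L : Type} [Field L] [NumberField L] (𝒰 : Ultrafilter ℕ) (f : ℕ → L) :
    ∀ᶠ t in (𝒰 : Filter ℕ), rp 𝒰 (gmB 𝒰 f) t = f t := rep_gm (𝒰 := 𝒰) f

theorem gmB_ne {L : Type} [Field L] [NumberField L] (𝒰 : Ultrafilter ℕ) (f : ℕ → L)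
    (h : ∀ t, f t ≠ 0) : gmB 𝒰 f ≠ 0 := by
  intro h0
  rw [← map_zero (gmB 𝒰), gmB_eq] at h0
  obtain ⟨t, ht⟩ := h0.exists
  exact h t ht

/-- germs of elements of the group -/
noncomputable def ug {K L : Type} [Field K] [Field L] [NumberField L] [Algebra K L]
    (𝒰 : Ultrafilter ℕ) (f : ℕ → Kˣ) : (BA L 𝒰)ˣ :=
  Units.mk0 (gmB 𝒰 fun t => algebraMap K L (f t : K))
    (gmB_ne 𝒰 _ fun t => (map_ne_zero _).2 (f t).ne_zero)

theorem ug_mem {K L : Type} [Field K] [Field L] [NumberField L] [Algebra K L] [IsGalois ℚ L]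
    (D : PD L) (𝒰 : Ultrafilter ℕ) (Γ : Subgroup Kˣ)
    (hD : ∀ g ∈ Γ, D.TInt (algebraMap K L (g : K)) ∧ D.TInt (algebraMap K L (g : K))⁻¹)
    (f : ℕ → Kˣ) (hf : ∀ t, f t ∈ Γ) : (ug 𝒰 f : (BA L 𝒰)ˣ) ∈ WU D 𝒰 := by
  have h0 := rp_gmB 𝒰 (fun t => algebraMap K L (f t : K))
  have hone : ((1 : 𝓞 L) : L) = 1 := map_one (algebraMap (𝓞 L) L)
  refine ⟨?_, ?_⟩
  · refine ⟨1, one_ne_zero, ?_⟩
    filter_upwards [h0] with t h
    have h1 : rp 𝒰 ((ug 𝒰 f : (BA L 𝒰)ˣ) : BA L 𝒰) t = algebraMap K L (f t : K) := h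
    rw [h1, hone, one_mul]
    exact (hD _ (hf t)).1
  · refine ⟨1, one_ne_zero, ?_⟩
    filter_upwards [h0, rp_inv 𝒰 ((ug 𝒰 f : (BA L 𝒰)ˣ) : BA L 𝒰) (Units.ne_zero _)] with t h h2
    have h1 : rp 𝒰 ((ug 𝒰 f : (BA L 𝒰)ˣ) : BA L 𝒰) t = algebraMap K L (f t : K) := h
    rw [Units.val_inv_eq_inv_val, h2, h1, hone, one_mul]
    exact (hD _ (hf t)).2

theorem countable_poly (K : Type) [Field K] [NumberField K] (n : ℕ) :
    Countable (MvPolynomial (Fin n) K) := by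
  have h1 : Countable K := by
    let b := Module.finBasis ℚ K
    exact (b.equivFun.toEquiv : K ≃ (Fin _ → ℚ)).countable_iff.2 inferInstance
  exact (basisMonomials (Fin n) K).repr.injective.countable

/-- the main theorem -/
theorem main (K : Type) [Field K] [NumberField K] (Γ : Subgroup Kˣ) (hΓ : Γ.FG) (m l P : ℕ)
    (ε : ℝ) (hε : 0 < ε) :
    ∃ (G : MvPolynomial (Fin (m + 1)) K) (C : ℝ), (∃ e, G.IsHomogeneous e) ∧ G ≠ 0 ∧
      ∀ (a : Fin (m + 2) → K) (ρ : 𝓞 K) (τ : K), (∀ σ, a σ ≠ 0) → ∑ σ, a σ = 0 → ρ ≠ 0 →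
        (ρ : K) ^ P = τ * ∏ σ, a σ → (∀ σ, Sparse Γ l (a σ)) → Sparse Γ l (ρ : K) →
        Sparse Γ l τ → eval (fun c : Fin (m + 1) => a c.castSucc) G ≠ 0 →
        Height.logHeight a ≤ (1 + ε) * Real.log |((Algebra.norm ℤ ρ : ℤ) : ℝ)| + C := by
  classical
  by_contra hcon
  push Not at hcon
  -- the enumeration of the forms
  let 𝒢 : Type := {G : MvPolynomial (Fin (m + 1)) K // (∃ e, G.IsHomogeneous e) ∧ G ≠ 0}
  have hcount : Countable 𝒢 := by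
    have := countable_poly K (m + 1)
    exact inferInstanceAs (Countable {G : MvPolynomial (Fin (m + 1)) K //
      (∃ e, G.IsHomogeneous e) ∧ G ≠ 0})
  have hne𝒢 : Nonempty 𝒢 := ⟨⟨1, ⟨0, isHomogeneous_one _ _⟩, one_ne_zero⟩⟩
  obtain ⟨F, hF⟩ := exists_surjective_nat 𝒢
  let Gn : ℕ → MvPolynomial (Fin (m + 1)) K := fun n => ∏ i ∈ Finset.range (n + 1), (F i).1
  have hGn : ∀ n, (∃ e, (Gn n).IsHomogeneous e) ∧ Gn n ≠ 0 := by
    intro n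
    choose e he using fun i => (F i).2.1
    exact ⟨⟨_, IsHomogeneous.prod _ _ e fun i _ => he i⟩,
      Finset.prod_ne_zero_iff.2 fun i _ => (F i).2.2⟩
  choose a ρ τ ha0 hsum hρ0 hrel hSa hSρ hSτ hG hbad using fun n : ℕ =>
    hcon (Gn n) (n : ℝ) (hGn n).1 (hGn n).2
  choose sa ua hua hsa using hSa
  choose sρ uρ huρ hsρ using hSρ
  choose sτ uτ huτ hsτ using hSτ
  obtain ⟨L, _, _, _, _, hi, hnorm⟩ := Pool.Agent.P8H75.SN.t_EXT K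
  obtain ⟨D, hD⟩ := exists_PD_fg (L := L) hi Γ hΓ
  let 𝒰 : Ultrafilter ℕ := Filter.hyperfilter ℕ
  have hlarge : ∀ n : ℕ, ∀ᶠ t in (𝒰 : Filter ℕ), n ≤ t := by
    intro n
    have h1 : ∀ᶠ t in (Filter.atTop : Filter ℕ), n ≤ t := Filter.eventually_ge_atTop n
    have h2 : ((𝒰 : Ultrafilter ℕ) : Filter ℕ) ≤ Filter.cofinite := Filter.hyperfilter_le_cofinite
    rw [← Nat.cofinite_eq_atTop] at h1
    exact h2 h1
  -- the patterns
  obtain ⟨Sa, hSa⟩ := eventually_const (𝒰 := 𝒰) sa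
  obtain ⟨Sρ, hSρ⟩ := eventually_const (𝒰 := 𝒰) sρ
  obtain ⟨Sτ, hSτ⟩ := eventually_const (𝒰 := 𝒰) sτ
  -- the germs
  let al : K →+* L := algebraMap K L
  let α : Fin (m + 2) → BA L 𝒰 := fun σ => gmB 𝒰 fun t => al (a t σ)
  let R : BA L 𝒰 := gmB 𝒰 fun t => al (ρ t : K)
  let T : BA L 𝒰 := gmB 𝒰 fun t => al (τ t)
  let ι : Type := (Fin (m + 2) × Fin l) ⊕ (Fin l ⊕ Fin l)
  let u : ι → (BA L 𝒰)ˣ := Sum.elim (fun x => ug 𝒰 fun t => ua t x.1 x.2)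
    (Sum.elim (fun j => ug 𝒰 fun t => uρ t j) (fun j => ug 𝒰 fun t => uτ t j))
  have hu : ∀ i, u i ∈ WU D 𝒰 := by
    rintro (x | j | j)
    · exact ug_mem D 𝒰 Γ hD _ fun t => hua t x.1 x.2
    · exact ug_mem D 𝒰 Γ hD _ fun t => huρ t j
    · exact ug_mem D 𝒰 Γ hD _ fun t => huτ t j
  have hugsum : ∀ (S : Finset (Fin l)) (f : ℕ → Fin l → Kˣ) (x : ℕ → K) (s : ℕ → Finset (Fin l)),
      (∀ᶠ t in (𝒰 : Filter ℕ), s t = S) → (∀ t, x t = ∑ j ∈ s t, (f t j : K)) →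
      gmB 𝒰 (fun t => al (x t)) = ∑ j ∈ S, ((ug 𝒰 (fun t => f t j) : (BA L 𝒰)ˣ) : BA L 𝒰) := by
    intro S f x s hs hx
    have h1 : ∑ j ∈ S, ((ug 𝒰 (fun t => f t j) : (BA L 𝒰)ˣ) : BA L 𝒰) =
        gmB 𝒰 (∑ j ∈ S, fun t => al (f t j : K)) := by
      rw [map_sum]
      rfl
    rw [h1, gmB_eq]
    filter_upwards [hs] with t ht
    rw [hx t, ht, map_sum, Finset.sum_apply]
  let Iα : Fin (m + 2) → Finset ι := fun σ => (Sa σ).map
    ⟨fun j => Sum.inl (σ, j), fun j j' h => (Prod.mk.inj (Sum.inl_injective h)).2⟩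
  let Iρ : Finset ι := Sρ.map ⟨fun j => Sum.inr (Sum.inl j), fun j j' h =>
    Sum.inl_injective (Sum.inr_injective h)⟩
  let Iτ : Finset ι := Sτ.map ⟨fun j => Sum.inr (Sum.inr j), fun j j' h =>
    Sum.inr_injective (Sum.inr_injective h)⟩
  have hα : ∀ σ, α σ = ∑ i ∈ Iα σ, (u i : BA L 𝒰) := by
    intro σ
    rw [Finset.sum_map]
    refine hugsum (Sa σ) (fun t j => ua t σ j) (fun t => a t σ) (fun t => sa t σ) ?_
      (fun t => hsa t σ)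
    filter_upwards [hSa] with t ht
    rw [ht]
  have hR : R = ∑ i ∈ Iρ, (u i : BA L 𝒰) := by
    rw [Finset.sum_map]
    exact hugsum Sρ uρ (fun t => (ρ t : K)) sρ hSρ hsρ
  have hT : T = ∑ i ∈ Iτ, (u i : BA L 𝒰) := by
    rw [Finset.sum_map]
    exact hugsum Sτ uτ τ sτ hSτ hsτ
  have hα0 : ∀ σ, α σ ≠ 0 := fun σ => gmB_ne 𝒰 _ fun t => (map_ne_zero _).2 (ha0 t σ)
  have hR0 : R ≠ 0 := gmB_ne 𝒰 _ fun t => (map_ne_zero _).2
    (RingOfIntegers.coe_ne_zero_iff.2 (hρ0 t))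
  have hαsum : ∑ σ, α σ = 0 := by
    have h1 : ∑ σ, α σ = gmB 𝒰 (∑ σ, fun t => al (a t σ)) := by
      rw [map_sum]
    have h2 : (∑ σ, fun t => al (a t σ)) = 0 := by
      funext t
      rw [Finset.sum_apply, ← map_sum, hsum, map_zero, Pi.zero_apply]
    rw [h1, h2, map_zero]
  have hαrel : R ^ P = T * ∏ σ, α σ := by
    have h1 : R ^ P = gmB 𝒰 ((fun t => al (ρ t : K)) ^ P) := by rw [map_pow]
    have h2 : T * ∏ σ, α σ = gmB 𝒰 ((fun t => al (τ t)) * ∏ σ, fun t => al (a t σ)) := by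
      rw [map_mul, map_prod]
    rw [h1, h2]
    congr 1
    funext t
    rw [Pi.pow_apply, Pi.mul_apply, Finset.prod_apply, ← map_pow, hrel, map_mul, map_prod]
  have hrpα : ∀ᶠ t in (𝒰 : Filter ℕ), ∀ σ, rp 𝒰 (α σ) t = al (a t σ) :=
    (Filter.eventually_all).2 fun σ => rp_gmB 𝒰 _
  have hgen : ∀ G : MvPolynomial (Fin (m + 1)) L, (∃ e, G.IsHomogeneous e) → G ≠ 0 →
      aeval (fun c : Fin (m + 1) => α c.castSucc) G ≠ 0 := by
    rintro G ⟨e, he⟩ hG0 h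
    obtain ⟨G', hG'1, hG'2, hG'3⟩ := descend (K := K) G he hG0
    obtain ⟨i, hi⟩ := hF ⟨G', ⟨e, hG'1⟩, hG'2⟩
    have h1 := rp_aeval 𝒰 (fun c : Fin (m + 1) => α c.castSucc) G
    have h2 : ∀ᶠ t in (𝒰 : Filter ℕ), rp 𝒰 (0 : BA L 𝒰) t = 0 :=
      Pool.Agent.Y742.AR.rep_zero (K := L) (𝒰 := 𝒰)
    obtain ⟨t, e1, e2, e3, e4⟩ := (h1.and (h2.and (hrpα.and (hlarge i)))).exists
    rw [h, e2] at e1
    simp only [e3] at e1
    have h3 := hG'3 (fun c : Fin (m + 1) => a t c.castSucc) e1.symm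
    apply hG t
    rw [map_prod]
    refine Finset.prod_eq_zero (Finset.mem_range.2 (Nat.lt_succ_of_le e4)) ?_
    rw [hi]
    exact h3
  obtain ⟨C, hC⟩ := core D Pool.Agent.P8H69.SN.t_ALG Pool.Agent.P8H78.SN.t_JAC
    Pool.Agent.P8H75.SN.t_HT u hu P α R T Iα Iρ Iτ hα hR hT hα0 hR0 hαsum hαrel hgen ε hε
  have hrpR : ∀ᶠ t in (𝒰 : Filter ℕ), rp 𝒰 R t = al (ρ t : K) := rp_gmB 𝒰 _
  obtain ⟨d, hd⟩ : ∃ d : ℕ, d = Module.finrank K L := ⟨_, rfl⟩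
  have hfd : FiniteDimensional K L := by
    have hst : IsScalarTower ℚ K L := IsScalarTower.of_algebraMap_eq' (Subsingleton.elim _ _)
    exact FiniteDimensional.right ℚ K L
  have hd0 : 0 < d := by
    rw [hd]
    exact Module.finrank_pos
  have hdR : (1 : ℝ) ≤ d := by exact_mod_cast hd0
  obtain ⟨n0, hn0⟩ := exists_nat_gt C
  obtain ⟨t, e1, e2, e3, e4⟩ := (hC.and (hrpα.and (hrpR.and (hlarge n0)))).exists
  simp only [e2, e3] at e1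
  rw [Pool.Agent.Helper259.HtExt.logHeight_ext, ← hd] at e1
  have hρ'0 : (algebraMap (𝓞 K) (𝓞 L) (ρ t)) ≠ 0 := by
    intro h
    have h1 : al (ρ t : K) = 0 := by
      have h2 : ((algebraMap (𝓞 K) (𝓞 L) (ρ t) : 𝓞 L) : L) = al (ρ t : K) := rfl
      rw [← h2, h]
      exact map_zero (algebraMap (𝓞 L) L)
    exact RingOfIntegers.coe_ne_zero_iff.2 (hρ0 t) ((map_eq_zero _).1 h1)
  have h1 := t_NRM L D (algebraMap (𝓞 K) (𝓞 L) (ρ t)) hρ'0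
  have h2 : ((algebraMap (𝓞 K) (𝓞 L) (ρ t) : 𝓞 L) : L) = al (ρ t : K) := rfl
  rw [hnorm (ρ t) _ h2, h2, ← hd] at h1
  have h3 : Real.log |((Algebra.norm ℤ (ρ t) ^ d : ℤ) : ℝ)| =
      d * Real.log |((Algebra.norm ℤ (ρ t) : ℤ) : ℝ)| := by
    push_cast
    rw [abs_pow, Real.log_pow]
  rw [h3] at h1
  have h4 := hbad t
  have h5 : (n0 : ℝ) ≤ t := by exact_mod_cast e4
  have h6 : (1 + ε) * ∑ v, Real.log (D.av v (al (ρ t : K))) ≤
      (1 + ε) * (d * Real.log |((Algebra.norm ℤ (ρ t) : ℤ) : ℝ)|) :=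
    mul_le_mul_of_nonneg_left h1 (by linarith)
  have h7 : (d : ℝ) * ((1 + ε) * Real.log |((Algebra.norm ℤ (ρ t) : ℤ) : ℝ)| + t) <
      d * Height.logHeight (a t) := mul_lt_mul_of_pos_left h4 (by linarith)
  have h8 : (t : ℝ) ≤ d * t := by
    have : (0 : ℝ) ≤ t := Nat.cast_nonneg _
    nlinarith
  linarith

end Pool.Agent.P8H9.SN
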