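import Mathlib
import Pool.Agent.P8H9.SN.Main

/-!
# Sparse points over number fields: three terms, without exceptional set
-/

set_option autoImplicit false
set_option linter.unusedSectionVars false

open Finset MvPolynomial Filter

namespace Pool.Agent.P8H9.SN

open NumberField IsDedekindDomain

/-- the zeros of a binary form are finitely many ratios -/
theorem finite_ratios {K : Type} [Field K] [CharZero K] (G : MvPolynomial (Fin 2) K) (e : ℕ)
    (hG : G.IsHomogeneous e) (hG0 : G ≠ 0) : {r : K | eval ![r, 1] G = 0}.Finite := by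
  classical
  have hscale : ∀ (s r y : K), eval ![s * r, s * y] G = s ^ e * eval ![r, y] G := by
    intro s r y
    have h := hom_scale (S := K) hG s ![r, y]
    rw [aeval_eq_eval, aeval_eq_eval] at h
    rw [← h]
    congr 2
    funext i
    fin_cases i <;> rfl
  let g : Polynomial K := aeval ![Polynomial.X, 1] G
  have hg : ∀ r, g.eval r = eval ![r, 1] G := by
    intro r
    have h1 : (Polynomial.aeval r : Polynomial K →ₐ[K] K).comp
        (aeval ![(Polynomial.X : Polynomial K), 1]) = aeval ![r, 1] := by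
      apply MvPolynomial.algHom_ext
      intro i
      fin_cases i <;> simp
    have h2 := congrArg (fun f : MvPolynomial (Fin 2) K →ₐ[K] K => f G) h1
    simp only [AlgHom.comp_apply] at h2
    rw [aeval_eq_eval] at h2
    rw [← h2, Polynomial.coe_aeval_eq_eval]
  have hg0 : g ≠ 0 := by
    intro h0
    have h1 : G * X 1 = 0 := by
      apply MvPolynomial.funext
      intro x
      rw [map_mul, eval_X, map_zero]
      by_cases h : x 1 = 0
      · rw [h, mul_zero]
      · have h2 := hscale (x 1) (x 0 / x 1) 1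
        have h3 : ![x 1 * (x 0 / x 1), x 1 * 1] = x := by
          funext i
          fin_cases i
          · show x 1 * (x 0 / x 1) = x 0
            field_simp
          · show x 1 * 1 = x 1
            ring
        rw [h3, ← hg, h0, Polynomial.eval_zero, mul_zero] at h2
        rw [h2, zero_mul]
    exact hG0 ((mul_eq_zero.1 h1).resolve_right (X_ne_zero _))
  refine (g.roots.toFinset.finite_toSet).subset fun r hr => ?_
  rw [Finset.mem_coe, Multiset.mem_toFinset, Polynomial.mem_roots hg0, Polynomial.IsRoot.def, hg]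
  exact hr

/-- the norm of a nonzero integer -/
theorem log_norm_nonneg {K : Type} [Field K] [NumberField K] (ρ : 𝓞 K) (hρ : ρ ≠ 0) :
    0 ≤ Real.log |((Algebra.norm ℤ ρ : ℤ) : ℝ)| := by
  apply Real.log_nonneg
  have h1 : Algebra.norm ℤ ρ ≠ 0 := Algebra.norm_ne_zero_iff.2 hρ
  have h2 := Int.one_le_abs h1
  exact_mod_cast h2

/-- three terms -/
theorem abcK (K : Type) [Field K] [NumberField K] (Γ : Subgroup Kˣ) (hΓ : Γ.FG) (l P : ℕ)
    (ε : ℝ) (hε : 0 < ε) :
    ∃ C : ℝ, ∀ (a : Fin 3 → K) (ρ : 𝓞 K) (τ : K), (∀ σ, a σ ≠ 0) → ∑ σ, a σ = 0 → ρ ≠ 0 →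
        (ρ : K) ^ P = τ * ∏ σ, a σ → (∀ σ, Sparse Γ l (a σ)) → Sparse Γ l (ρ : K) →
        Sparse Γ l τ →
        Height.logHeight a ≤ (1 + ε) * Real.log |((Algebra.norm ℤ ρ : ℤ) : ℝ)| + C := by
  classical
  obtain ⟨G, C, ⟨e, he⟩, hG0, hmain⟩ := main K Γ hΓ 1 l P ε hε
  have hfin := finite_ratios G e he hG0
  obtain ⟨C', hC'⟩ : ∃ C' : ℝ, ∀ r ∈ {r : K | eval ![r, 1] G = 0},
      Height.logHeight (![r, 1, -(r + 1)] : Fin 3 → K) ≤ C' := by
    obtain ⟨C', hC'⟩ := (hfin.image fun r => Height.logHeight (![r, 1, -(r + 1)] : Fin 3 → K)).bddAbove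
    exact ⟨C', fun r hr => hC' (Set.mem_image_of_mem _ hr)⟩
  refine ⟨|C| + |C'|, fun a ρ τ ha hsum hρ hrel hSa hSρ hSτ => ?_⟩
  have hN := log_norm_nonneg ρ hρ
  have hN' : 0 ≤ (1 + ε) * Real.log |((Algebra.norm ℤ ρ : ℤ) : ℝ)| :=
    mul_nonneg (by linarith) hN
  by_cases hG : eval (fun c : Fin 2 => a c.castSucc) G = 0
  · have h1 : a = a 1 • (![a 0 / a 1, 1, -(a 0 / a 1 + 1)] : Fin 3 → K) := by
      have h2 := hsum
      rw [Fin.sum_univ_three] at h2
      have h3 := ha 1
      funext i
      fin_cases i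
      · show a 0 = a 1 * (a 0 / a 1)
        field_simp
      · show a 1 = a 1 * 1
        ring
      · show a 2 = a 1 * (-(a 0 / a 1 + 1))
        field_simp
        linear_combination h2
    have h2 : eval ![a 0 / a 1, 1] G = 0 := by
      have h := hom_scale (S := K) he (a 1) ![a 0 / a 1, 1]
      rw [aeval_eq_eval, aeval_eq_eval] at h
      have h3 : (fun c : Fin 2 => a 1 * ![a 0 / a 1, 1] c) = fun c : Fin 2 => a c.castSucc := by
        have h4 := ha 1
        funext i
        fin_cases i
        · show a 1 * (a 0 / a 1) = a 0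
          field_simp
        · show a 1 * 1 = a 1
          ring
      rw [h3, hG] at h
      exact (mul_eq_zero.1 h.symm).resolve_left (pow_ne_zero _ (ha 1))
    have h3 := hC' _ h2
    rw [h1, Height.logHeight_smul_eq_logHeight _ (ha 1)]
    have := le_abs_self C'
    have := abs_nonneg C
    linarith
  · have h1 := hmain a ρ τ ha hsum hρ hrel hSa hSρ hSτ hG
    have := le_abs_self C
    have := abs_nonneg C'
    linarith

end Pool.Agent.P8H9.SN
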