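import Mathlib
import Pool.Agent.P8H9.SN.Abc

/-!
# Sparse triples of integers in lowest terms
-/

set_option autoImplicit false
set_option linter.unusedSectionVars false

open Finset Filter

namespace Pool.Agent.P8H9.SN

open NumberField IsDedekindDomain

variable {K : Type} [Field K] [NumberField K]

theorem sup3 (f : Fin 3 → ℝ) : ⨆ i, f i = max (f 0) (max (f 1) (f 2)) := by
  apply le_antisymm
  · refine ciSup_le fun i => ?_
    fin_cases i
    · exact le_max_left _ _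
    · exact (le_max_left _ _).trans (le_max_right _ _)
    · exact (le_max_right _ _).trans (le_max_right _ _)
  · have h : ∀ i, f i ≤ ⨆ i, f i := fun i => le_ciSup (Set.finite_range f).bddAbove i
    exact max_le (h 0) (max_le (h 1) (h 2))

/-- the height of a triple in lowest terms -/
theorem logHeight_triple (a b c : 𝓞 K) (ha : a ≠ 0)
    (hcop : Ideal.span {a, b, c} = (⊤ : Ideal (𝓞 K))) :
    Height.logHeight (fun i => ((![a, b, c] : Fin 3 → 𝓞 K) i : K)) =
      Real.log (∏ φ : K →+* ℂ, max ‖φ a‖ (max ‖φ b‖ ‖φ c‖)) := by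
  classical
  have hv : (![a, b, c] : Fin 3 → 𝓞 K) ≠ 0 := fun h3 => ha (congrFun h3 0)
  have hvK : (fun i => ((![a, b, c] : Fin 3 → 𝓞 K) i : K)) ≠ 0 := by
    intro h3
    have h4 : algebraMap (𝓞 K) K a = 0 := congrFun h3 0
    exact ha (RingOfIntegers.coe_eq_zero_iff.1 h4)
  rw [Height.logHeight_eq_log_mulHeight, NumberField.mulHeight_eq hvK]
  congr 1
  have hfin : ∏ᶠ v : FinitePlace K, ⨆ i, v ((![a, b, c] : Fin 3 → 𝓞 K) i : K) = 1 := by
    have h2 := NumberField.absNorm_mul_finprod_finitePlace_eq_one (K := K) hv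
    have h3 : Ideal.span (Set.range (![a, b, c] : Fin 3 → 𝓞 K)) = ⊤ := by
      rw [← hcop]
      congr 1
      ext x
      simp only [Set.mem_range, Fin.exists_fin_succ, Set.mem_insert_iff,
        Set.mem_singleton_iff]
      simp [eq_comm]
    rw [h3, Ideal.absNorm_top, Nat.cast_one, one_mul] at h2
    exact h2
  rw [hfin, mul_one]
  have e : ∀ φ : K →+* ℂ, max ‖φ a‖ (max ‖φ b‖ ‖φ c‖) =
      (fun w : InfinitePlace K => ⨆ i, w ((![a, b, c] : Fin 3 → 𝓞 K) i : K))
        (InfinitePlace.mk φ) := by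
    intro φ
    simp only
    rw [sup3]
    simp only [InfinitePlace.apply]
    rfl
  rw [Finset.prod_congr rfl fun φ _ => e φ,
    ← Finset.prod_fiberwise (s := Finset.univ) (g := InfinitePlace.mk)]
  refine Finset.prod_congr rfl fun w _ => ?_
  rw [Finset.prod_congr rfl (g := fun _ => ⨆ i, w ((![a, b, c] : Fin 3 → 𝓞 K) i : K)) (by
    intro φ hφ
    rw [Finset.mem_filter] at hφ
    simp only [hφ.2]), Finset.prod_const]
  congr 1
  exact (InfinitePlace.card_filter_mk_eq w).symm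

/-- three sparse integers in lowest terms -/
theorem abcInt (K : Type) [Field K] [NumberField K] (Γ : Subgroup Kˣ) (hΓ : Γ.FG) (l M : ℕ)
    (ε : ℝ) (hε : 0 < ε) :
    ∃ C : ℝ, 0 < C ∧ ∀ a b c : 𝓞 K, a + b + c = 0 → a * b * c ≠ 0 →
      Ideal.span {a, b, c} = (⊤ : Ideal (𝓞 K)) → Sparse Γ l (a : K) →
      Sparse Γ l (b : K) → Sparse Γ l (c : K) → ∀ ρ : 𝓞 K, ρ ≠ 0 → Sparse Γ l (ρ : K) →
      ∀ t : K, Sparse Γ l t → (ρ : K) ^ M = t * ((a : K) * b * c) →
      ∏ φ : K →+* ℂ, max ‖φ a‖ (max ‖φ b‖ ‖φ c‖) ≤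
        C * |((Algebra.norm ℤ ρ : ℤ) : ℝ)| ^ (1 + ε) := by
  obtain ⟨C, hC⟩ := abcK K Γ hΓ l M ε hε
  refine ⟨Real.exp C, Real.exp_pos _, fun a b c hsum hne hcop ha hb hc ρ hρ hρs t ht hrel => ?_⟩
  have ha0 : a ≠ 0 := left_ne_zero_of_mul (left_ne_zero_of_mul hne)
  have hb0 : b ≠ 0 := right_ne_zero_of_mul (left_ne_zero_of_mul hne)
  have hc0 : c ≠ 0 := right_ne_zero_of_mul hne
  have h1 := hC (fun i => ((![a, b, c] : Fin 3 → 𝓞 K) i : K)) ρ t (by
    intro σ
    fin_cases σ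
    · exact RingOfIntegers.coe_ne_zero_iff.2 ha0
    · exact RingOfIntegers.coe_ne_zero_iff.2 hb0
    · exact RingOfIntegers.coe_ne_zero_iff.2 hc0) (by
    rw [Fin.sum_univ_three]
    show algebraMap (𝓞 K) K a + algebraMap (𝓞 K) K b + algebraMap (𝓞 K) K c = 0
    rw [← map_add, ← map_add, hsum, map_zero]) hρ (by
    rw [Fin.prod_univ_three]
    exact hrel) (by
    intro σ
    fin_cases σ
    · exact ha
    · exact hb
    · exact hc) hρs ht
  rw [logHeight_triple a b c ha0 hcop] at h1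
  have hpos : 0 < ∏ φ : K →+* ℂ, max ‖φ a‖ (max ‖φ b‖ ‖φ c‖) := by
    refine Finset.prod_pos fun φ _ => lt_of_lt_of_le ?_ (le_max_left _ _)
    rw [norm_pos_iff]
    intro h3
    exact ha0 (RingOfIntegers.coe_eq_zero_iff.1 ((map_eq_zero φ).1 h3))
  have hN : 0 < |((Algebra.norm ℤ ρ : ℤ) : ℝ)| := by
    rw [abs_pos]
    exact_mod_cast (Algebra.norm_ne_zero_iff.2 hρ)
  rw [← Real.log_le_log_iff hpos (by positivity), Real.log_mul (Real.exp_pos _).ne'
    (Real.rpow_pos_of_pos hN _).ne', Real.log_exp, Real.log_rpow hN]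
  linarith

end Pool.Agent.P8H9.SN
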